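import Pool.Agent.H10Wsc.NonConv

/-!
Under the continuum hypothesis there are a Banach space with weak* sequentially compact dual ball
and a probability measure such that no `L^p`-space of functions with values in the space has a
weak* sequentially compact dual ball.
-/

set_option autoImplicit false
open MeasureTheory Filter Topology Pool.Agent.LpSeq Cardinal
open scoped ENNReal

namespace Pool.Agent.H10Wsc

/-- the first uncountable well-order -/
abbrev W1 : Type := (ℵ₁ : Cardinal.{0}).ord.ToType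

lemma mk_W1 : #W1 = ℵ₁ := by
  rw [Cardinal.mk_toType, Cardinal.card_ord]

lemma countableSeg_W1 : CountableSeg W1 := by
  intro b
  have h : #(Set.Iio b) < ℵ₁ := by
    have := Cardinal.mk_Iio_lt b (by simp)
    rwa [mk_W1] at this
  rw [← Cardinal.le_aleph0_iff_set_countable]
  refine Order.lt_succ_iff.1 (h.trans_eq ?_)
  exact Cardinal.succ_aleph0.symm

lemma bounded_W1 (s : ℕ → W1) : ∃ c, ∀ i, s i < c := by
  by_contra hcon
  push Not at hcon
  have h1 : (Set.univ : Set W1) ⊆ ⋃ i, (Set.Iio (s i) ∪ {s i}) := by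
    intro c _
    obtain ⟨i, hi⟩ := hcon c
    rw [Set.mem_iUnion]
    refine ⟨i, ?_⟩
    rcases hi.lt_or_eq with h | h
    · exact Or.inl h
    · exact Or.inr h
  have h2 : (Set.univ : Set W1).Countable :=
    (Set.countable_iUnion (fun i => (countableSeg_W1 (s i)).union (Set.countable_singleton _))).mono
      h1
  have h3 : #(Set.univ : Set W1) ≤ ℵ₀ := Cardinal.le_aleph0_iff_set_countable.2 h2
  rw [Cardinal.mk_univ, mk_W1] at h3
  exact absurd h3 (not_le.2 Cardinal.aleph0_lt_aleph_one)

/-- **CH gives counterexamples.**  There is one space and one probability measure for all `p`. -/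
theorem ch_counterexample (hCH : 𝔠 = (ℵ₁ : Cardinal.{0})) :
    ∃ (Ω : Type) (_ : MeasurableSpace Ω) (μ : Measure Ω) (_ : IsProbabilityMeasure μ)
      (X : Type) (_ : NormedAddCommGroup X) (_ : NormedSpace ℝ X) (_ : CompleteSpace X),
      WStarSeqCompact X ∧ ∀ (p : ℝ≥0∞) [Fact (1 ≤ p)], ¬ WStarSeqCompact (Lp X p μ) := by
  classical
  have hW : #W1 = 𝔠 := mk_W1.trans hCH.symm
  have hne : Nonempty W1 := by
    rw [← Cardinal.mk_ne_zero_iff, mk_W1]
    exact (Cardinal.aleph0_pos.trans Cardinal.aleph0_lt_aleph_one).ne'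
  -- enumeration of the sequences
  have he : ∃ e : W1 → ℕ → W1, Function.Surjective e := by
    have h1 : #(ℕ → W1) ≤ #W1 := by
      rw [Cardinal.mk_arrow, Cardinal.lift_id, Cardinal.lift_id, Cardinal.mk_nat, hW,
        Cardinal.continuum_power_aleph0]
    obtain ⟨f, hf⟩ := (Cardinal.le_def _ _).1 h1
    exact ⟨Function.invFun f, Function.invFun_surjective hf⟩
  have hτ : ∃ τ : W1 → ℕ → Bool, Function.Surjective τ := by
    have h1 : #(ℕ → Bool) ≤ #W1 := by
      rw [Cardinal.mk_arrow, Cardinal.lift_id, Cardinal.lift_id, Cardinal.mk_nat, hW,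
        Cardinal.mk_bool, Cardinal.two_power_aleph0]
    obtain ⟨f, hf⟩ := (Cardinal.le_def _ _).1 h1
    exact ⟨Function.invFun f, Function.invFun_surjective hf⟩
  have hN : ∃ N : W1 → W1 → ℕ, ∀ b, Set.InjOn (N b) (Set.Iio b) := by
    have h1 : ∀ b : W1, ∃ f : W1 → ℕ, Set.InjOn f (Set.Iio b) := fun b =>
      Set.countable_iff_exists_injOn.1 (countableSeg_W1 b)
    choose N hN using h1
    exact ⟨N, hN⟩
  obtain ⟨e, he⟩ := he
  obtain ⟨τ, hτ⟩ := hτ
  obtain ⟨N, hN⟩ := hN
  refine ⟨W1 → Bool, inferInstance, mu W1, inferInstance, XX e N, inferInstance, inferInstance,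
    inferInstance, wstar_XX e N countableSeg_W1 bounded_W1 he, ?_⟩
  intro p _
  exact not_wstar_Lp e N countableSeg_W1 hN τ hτ

end Pool.Agent.H10Wsc
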