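import Pool.Agent.H10Wsc.Space

/-!
The functionals `F ↦ ∫ F(r)(th(r + τ_n)) dμ(r)` on `L^p(μ, X)` have no weak* convergent subsequence.
-/

set_option autoImplicit false
open MeasureTheory Filter Topology Pool.Agent.LpSeq
open scoped ENNReal BoundedContinuousFunction

namespace Pool.Agent.H10Wsc

variable {I : Type} [LinearOrder I]
variable (e : I → ℕ → I) (N : I → I → ℕ)

lemma measurable_evk {Ω : Type} [MeasurableSpace Ω] (κ : Ω → KK e N)
    (hκ : ∀ b, Measurable (fun r => (κ r).1 b)) (y : XX e N) :
    Measurable (fun r => evk e N y (κ r)) := by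
  have h1 : ∀ f ∈ Submodule.span ℝ (Set.range (hh e N)), Measurable (fun r => f (κ r)) := by
    intro f hf
    induction hf using Submodule.span_induction with
    | mem x hx =>
      obtain ⟨b, rfl⟩ := hx
      exact hκ b
    | zero => exact measurable_const
    | add x y _ _ hx hy => exact hx.add hy
    | smul a x _ hx => exact hx.const_mul a
  have h2 : val e N y ∈ closure ((Submodule.span ℝ (Set.range (hh e N)) :
      Submodule ℝ (KK e N →ᵇ ℝ)) : Set (KK e N →ᵇ ℝ)) := by
    rw [← Submodule.topologicalClosure_coe]
    exact y.2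
  obtain ⟨f, hf, hlim⟩ := mem_closure_iff_seq_limit.1 h2
  refine measurable_of_tendsto_metrizable (f := fun n r => f n (κ r)) (fun n => h1 _ (hf n)) ?_
  rw [tendsto_pi_nhds]
  intro r
  have h3 : Continuous (fun g : KK e N →ᵇ ℝ => g (κ r)) :=
    (BoundedContinuousFunction.lipschitz_eval_const (κ r)).continuous
  exact (h3.tendsto _).comp hlim

lemma aesm_evk {Ω : Type} [MeasurableSpace Ω] {μ : Measure Ω} (κ : Ω → KK e N)
    (hκ : ∀ b, Measurable (fun r => (κ r).1 b)) (F : Ω → XX e N) (hF : AEStronglyMeasurable F μ) :
    AEStronglyMeasurable (fun r => evk e N (F r) (κ r)) μ := by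
  obtain ⟨G, hG, hFG⟩ := hF
  refine ⟨fun r => evk e N (G r) (κ r), ?_, ?_⟩
  · have hlim := hG.tendsto_approx
    refine Measurable.stronglyMeasurable ?_
    refine measurable_of_tendsto_metrizable
      (f := fun n r => evk e N (hG.approx n r) (κ r)) (fun n => ?_) ?_
    · -- a simple function
      have h1 : (fun r => evk e N (hG.approx n r) (κ r)) =
          fun r => ∑ y ∈ (hG.approx n).range,
            ((hG.approx n) ⁻¹' {y}).indicator (fun r => evk e N y (κ r)) r := by
        ext r
        rw [Finset.sum_eq_single_of_mem (hG.approx n r) (SimpleFunc.mem_range_self _ r)]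
        · simp
        · intro y _ hy
          rw [Set.indicator_of_notMem]
          intro h
          exact hy h.symm
      rw [h1]
      refine Finset.measurable_sum _ (fun y _ => ?_)
      exact (measurable_evk e N κ hκ y).indicator (SimpleFunc.measurableSet_fiber _ _)
    · rw [tendsto_pi_nhds]
      intro r
      have h2 : Tendsto (fun n => hG.approx n r - G r) atTop (𝓝 0) := by
        have := (hlim r).sub_const (G r)
        rwa [sub_self] at this
      rw [tendsto_iff_norm_sub_tendsto_zero]
      refine squeeze_zero (fun _ => norm_nonneg _) (fun n => ?_)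
        (tendsto_norm_zero.comp h2)
      have h3 : evk e N (hG.approx n r) (κ r) - evk e N (G r) (κ r) =
          evk e N (hG.approx n r - G r) (κ r) := by
        simp [evk]
      rw [h3, Real.norm_eq_abs]
      exact abs_evk_le e N _ _
  · filter_upwards [hFG] with r hr
    rw [hr]

section functional

variable {Ω : Type} [MeasurableSpace Ω] {μ : Measure Ω} [IsProbabilityMeasure μ]
  {p : ℝ≥0∞} [Fact (1 ≤ p)]

lemma integrable_evk (κ : Ω → KK e N) (hκ : ∀ b, Measurable (fun r => (κ r).1 b))
    (F : Lp (XX e N) p μ) : Integrable (fun r => evk e N (F r) (κ r)) μ := by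
  have h1 : Integrable (fun r => F r) μ := (Lp.memLp F).integrable Fact.out
  refine Integrable.mono h1.norm (aesm_evk e N κ hκ _ (Lp.aestronglyMeasurable F))
    (Eventually.of_forall (fun r => ?_))
  rw [norm_norm, Real.norm_eq_abs]
  exact abs_evk_le e N _ _

/-- integration against a weak*-measurable function with values in the point evaluations -/
noncomputable def fn (κ : Ω → KK e N) (hκ : ∀ b, Measurable (fun r => (κ r).1 b)) :
    Lp (XX e N) p μ →L[ℝ] ℝ :=
  LinearMap.mkContinuous
    { toFun := fun F => ∫ r, evk e N (F r) (κ r) ∂μ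
      map_add' := fun F G => by
        rw [← integral_add (integrable_evk e N κ hκ F) (integrable_evk e N κ hκ G)]
        refine integral_congr_ae ?_
        filter_upwards [Lp.coeFn_add F G] with r hr
        rw [hr, Pi.add_apply, evk_add]
      map_smul' := fun c F => by
        rw [RingHom.id_apply, smul_eq_mul, ← integral_const_mul]
        refine integral_congr_ae ?_
        filter_upwards [Lp.coeFn_smul c F] with r hr
        rw [hr, Pi.smul_apply, evk_smul] } 1 (fun F => by
      have h1 : Integrable (fun r => F r) μ := (Lp.memLp F).integrable Fact.out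
      have h2 : |∫ r, evk e N (F r) (κ r) ∂μ| ≤ ∫ r, ‖F r‖ ∂μ := by
        refine (abs_integral_le_integral_abs).trans ?_
        exact integral_mono (integrable_evk e N κ hκ F).abs h1.norm (fun r => abs_evk_le e N _ _)
      have h3 : ∫ r, ‖F r‖ ∂μ ≤ ‖F‖ := by
        rw [integral_norm_eq_lintegral_enorm h1.aestronglyMeasurable, Lp.norm_def]
        refine ENNReal.toReal_mono (Lp.memLp F).2.ne ?_
        rw [← eLpNorm_one_eq_lintegral_enorm]
        exact eLpNorm_le_eLpNorm_of_exponent_le Fact.out h1.aestronglyMeasurable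
      rw [one_mul]
      exact h2.trans h3)

lemma fn_apply (κ : Ω → KK e N) (hκ : ∀ b, Measurable (fun r => (κ r).1 b))
    (F : Lp (XX e N) p μ) : fn e N κ hκ F = ∫ r, evk e N (F r) (κ r) ∂μ := rfl

lemma norm_fn_le (κ : Ω → KK e N) (hκ : ∀ b, Measurable (fun r => (κ r).1 b)) :
    ‖(fn e N κ hκ : Lp (XX e N) p μ →L[ℝ] ℝ)‖ ≤ 1 :=
  LinearMap.mkContinuous_norm_le _ zero_le_one _

lemma fn_ind (κ : Ω → KK e N) (hκ : ∀ b, Measurable (fun r => (κ r).1 b))
    (A : Set Ω) (hA : MeasurableSet A) (b : I) :
    fn e N κ hκ (ind μ p A hA (hx e N b)) = ∫ r, A.indicator (fun r => (κ r).1 b) r ∂μ := by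
  rw [fn_apply]
  refine integral_congr_ae ?_
  have h1 : (ind μ p A hA (hx e N b) : Ω → XX e N) =ᵐ[μ] A.indicator (fun _ => hx e N b) :=
    indicatorConstLp_coeFn
  filter_upwards [h1] with r hr
  rw [hr]
  by_cases h : r ∈ A
  · simp [h, evk_hx]
  · simp [h, evk_zero]

end functional

variable [WellFoundedLT I]

/-- the random function as a member of the admissible set -/
noncomputable def kth (r : I → Bool) : KK e N :=
  ⟨th e N r, fun b => ⟨abs_th_le e N r b, adm_of_ne_zero e N r b⟩⟩

lemma kth_apply (r : I → Bool) (b : I) : (kth e N r).1 b = th e N r b := rfl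

lemma measurable_kth (hI : CountableSeg I) (t : I → Bool) (b : I) :
    Measurable (fun r : I → Bool => (kth e N (tr t r)).1 b) :=
  (measurable_th e N hI b).comp (mp_tr t).measurable

/-- the coin set -/
def coinSet (b : I) : Set (I → Bool) := {r | r b = true}

omit [LinearOrder I] [WellFoundedLT I] in
lemma measurableSet_coinSet (b : I) : MeasurableSet (coinSet b) :=
  measurableSet_eq_fun (measurable_pi_apply b) measurable_const

/-- the value of the integral, for a translation which does not move the coordinate `b` -/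
noncomputable def v0 (b : I) : ℝ := ∫ r, (coinSet b).indicator (fun r => th e N r b) r ∂(mu I)

/-- the value of the integral, for a translation which moves the coordinate `b` -/
noncomputable def v1 (b : I) : ℝ := ∫ r, (coinSet b)ᶜ.indicator (fun r => th e N r b) r ∂(mu I)

lemma integral_tr (t : I → Bool) (g : (I → Bool) → ℝ) :
    ∫ r, g (tr t r) ∂(mu I) = ∫ r, g r ∂(mu I) :=
  (mp_tr t).integral_comp' (f := MeasurableEquiv.mk
    ⟨tr t, tr t, tr_tr _, tr_tr _⟩ (mp_tr t).measurable (mp_tr t).measurable) g

lemma integral_eq (t : I → Bool) (b : I) :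
    ∫ r, (coinSet b).indicator (fun r => th e N (tr t r) b) r ∂(mu I) =
      if t b then v1 e N b else v0 e N b := by
  have h1 : ∀ r : I → Bool, (coinSet b).indicator (fun r => th e N (tr t r) b) r =
      (fun u => (coinSet b).indicator (fun _ => th e N u b) (tr t u)) (tr t r) := by
    intro r
    simp only [tr_tr]
    by_cases h : r ∈ coinSet b <;> simp [h]
  simp only [h1]
  rw [integral_tr t (fun u => (coinSet b).indicator (fun _ => th e N u b) (tr t u))]
  split_ifs with ht
  · unfold v1
    congr 1
    ext u
    by_cases h : u b = true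
    · have h2 : tr t u ∉ coinSet b := by simp [coinSet, tr, h, ht]
      have h3 : u ∉ (coinSet b)ᶜ := by simp [coinSet, h]
      simp only [Set.indicator_of_notMem h2, Set.indicator_of_notMem h3]
    · have h2 : tr t u ∈ coinSet b := by simp [coinSet, tr, h, ht]
      have h3 : u ∈ (coinSet b)ᶜ := by simp [coinSet, h]
      simp only [Set.indicator_of_mem h2, Set.indicator_of_mem h3]
  · unfold v0
    congr 1
    ext u
    by_cases h : u b = true
    · have h2 : tr t u ∈ coinSet b := by simp [coinSet, tr, h, ht]
      have h3 : u ∈ coinSet b := by simp [coinSet, h]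
      simp only [Set.indicator_of_mem h2, Set.indicator_of_mem h3]
    · have h2 : tr t u ∉ coinSet b := by simp [coinSet, tr, h, ht]
      have h3 : u ∉ coinSet b := by simp [coinSet, h]
      simp only [Set.indicator_of_notMem h2, Set.indicator_of_notMem h3]

lemma gap (hI : CountableSeg I) (hN : ∀ b, Set.InjOn (N b) (Set.Iio b)) (b : I) :
    1 / 2 ≤ v0 e N b - v1 e N b := by
  classical
  have hint : Integrable (fun r => th e N r b) (mu I) :=
    Integrable.of_bound (measurable_th e N hI b).aestronglyMeasurable 1
      (Eventually.of_forall (fun r => abs_th_le e N r b))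
  have h1 : v0 e N b - v1 e N b = ∫ r, {r | Adm e N (th e N r) b}.indicator (fun _ => (1 : ℝ)) r
      ∂(mu I) := by
    unfold v0 v1
    rw [← integral_sub (hint.indicator (measurableSet_coinSet b))
      (hint.indicator (measurableSet_coinSet b).compl)]
    congr 1
    ext r
    rw [Set.indicator_apply, Set.indicator_apply, Set.indicator_apply]
    have h2 : (r ∈ coinSet b) ↔ r b = true := Iff.rfl
    have h3 : (r ∈ (coinSet b)ᶜ) ↔ ¬ r b = true := Iff.rfl
    simp only [h2, h3, Set.mem_ofPred_eq, th_eq]
    by_cases h4 : Adm e N (th e N r) b <;> by_cases h5 : r b = true <;> simp [h4, h5]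
  have hm : MeasurableSet {r | Adm e N (th e N r) b} :=
    measurableSet_adm e N hI _ b (fun c _ => measurable_th e N hI c)
  rw [h1, integral_indicator hm, setIntegral_const, smul_eq_mul, mul_one]
  have h2 := measure_not_adm_le e N hI hN b
  have h3 : (mu I).real {r | Adm e N (th e N r) b}ᶜ ≤ 1 / 2 := by
    rw [measureReal_def]
    refine (ENNReal.toReal_mono (by norm_num) h2).trans ?_
    simp
  have h4 := probReal_add_probReal_compl (μ := mu I) hm
  linarith

/-- **the counterexample, relative to an index set** -/
theorem not_wstar_Lp (hI : CountableSeg I) (hN : ∀ b, Set.InjOn (N b) (Set.Iio b))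
    (τ : I → ℕ → Bool) (hτ : Function.Surjective τ) {p : ℝ≥0∞} [Fact (1 ≤ p)] :
    ¬ WStarSeqCompact (Lp (XX e N) p (mu I)) := by
  classical
  intro hcon
  obtain ⟨ψ, -, k, hk, hψ⟩ := hcon
    (fun n => fn e N (fun r => kth e N (tr (fun b => τ b n) r))
      (measurable_kth e N hI (fun b => τ b n)))
    (fun n => norm_fn_le e N _ _)
  obtain ⟨b, hb⟩ := hτ (fun m => decide (∃ j, m = k (2 * j)))
  have h1 := hψ (ind (mu I) p (coinSet b) (measurableSet_coinSet b) (hx e N b))
  have h2 : ∀ n, (fn e N (fun r => kth e N (tr (fun b => τ b (k n)) r))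
      (measurable_kth e N hI (fun b => τ b (k n))) : Lp (XX e N) p (mu I) →L[ℝ] ℝ)
        (ind (mu I) p (coinSet b) (measurableSet_coinSet b) (hx e N b)) =
      if τ b (k n) then v1 e N b else v0 e N b := by
    intro n
    rw [fn_ind]
    exact integral_eq e N (fun b => τ b (k n)) b
  simp only [h2] at h1
  have h3 : Tendsto (fun n : ℕ => 2 * n) atTop atTop :=
    (strictMono_nat_of_lt_succ (fun n => by omega)).tendsto_atTop
  have h4 : Tendsto (fun n : ℕ => 2 * n + 1) atTop atTop :=
    (strictMono_nat_of_lt_succ (fun n => by omega)).tendsto_atTop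
  have h5 := h1.comp h3
  have h6 := h1.comp h4
  have h7 : ∀ n : ℕ, τ b (k (2 * n)) = true := by
    intro n
    rw [hb]
    simp only [decide_eq_true_eq]
    exact ⟨n, rfl⟩
  have h8 : ∀ n : ℕ, τ b (k (2 * n + 1)) = false := by
    intro n
    rw [hb]
    simp only [decide_eq_false_iff_not]
    rintro ⟨j, hj⟩
    have := hk.injective hj
    omega
  have h9 : Tendsto (fun _ : ℕ => v1 e N b) atTop (𝓝 (ψ (ind (mu I) p (coinSet b)
      (measurableSet_coinSet b) (hx e N b)))) := by
    refine h5.congr (fun n => ?_)
    simp only [Function.comp, h7, if_true]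
  have h10 : Tendsto (fun _ : ℕ => v0 e N b) atTop (𝓝 (ψ (ind (mu I) p (coinSet b)
      (measurableSet_coinSet b) (hx e N b)))) := by
    refine h6.congr (fun n => ?_)
    simp only [Function.comp, h8]
    simp
  have h11 := tendsto_nhds_unique tendsto_const_nhds h9
  have h12 := tendsto_nhds_unique tendsto_const_nhds h10
  have h13 := gap e N hI hN b
  rw [h11, h12] at h13
  norm_num at h13

end Pool.Agent.H10Wsc
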