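import Pool.Agent.H10Wsc.Rec

/-!
The Lebesgue-Bochner spaces, if the distributivity number is the continuum and is larger than `ℵ₁`.
-/

set_option autoImplicit false
set_option linter.unusedSectionVars false
open MeasureTheory Filter Topology Cardinal Pool.Agent.LpSeq
open scoped ENNReal symmDiff

namespace Pool.Agent.H10Wsc

variable {Ω : Type*} [MeasurableSpace Ω] {μ : Measure Ω} [IsProbabilityMeasure μ]
  {X : Type*} [NormedAddCommGroup X] [NormedSpace ℝ X]
  {p : ℝ≥0∞} [Fact (1 ≤ p)]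

lemma nu_ac (hp : p ≠ ⊤) (φ : Lp X p μ →L[ℝ] ℝ) : nu hp φ ≪ μ := by
  refine Measure.AbsolutelyContinuous.mk (fun A hA h0 => ?_)
  by_contra hne
  have hpos : 0 < VectorMeasure.variation (V := X →L[ℝ] ℝ) (vm hp φ) A :=
    lt_of_le_of_ne zero_le (Ne.symm hne)
  obtain ⟨P, hPA, -, hPm, hlt⟩ := VectorMeasure.exists_lt_sum_of_lt_variation (V := X →L[ℝ] ℝ)
    _ hA hpos
  refine absurd hlt (not_lt.2 (le_of_eq ?_))
  refine Finset.sum_eq_zero (fun B hB => ?_)
  rw [vm_apply hp φ (hPm B hB)]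
  have h1 := norm_ev_le hp φ B (hPm B hB)
  have h2 : μ.real B = 0 := by
    rw [measureReal_def, measure_mono_null (hPA B hB) h0]
    rfl
  have hp1 : 0 < p.toReal :=
    ENNReal.toReal_pos (zero_lt_one.trans_le (Fact.out : 1 ≤ p)).ne' hp
  rw [h2, Real.zero_rpow (by positivity), mul_zero] at h1
  rw [norm_le_zero_iff.1 h1]
  simp

/-- the density of the variation -/
noncomputable def hd (hp : p ≠ ⊤) (φ : Lp X p μ →L[ℝ] ℝ) (ω : Ω) : ℝ :=
  ((nu hp φ).rnDeriv μ ω).toReal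

lemma measurable_hd (hp : p ≠ ⊤) (φ : Lp X p μ →L[ℝ] ℝ) : Measurable (hd hp φ) :=
  (Measure.measurable_rnDeriv _ _).ennreal_toReal

lemma hd_nonneg (hp : p ≠ ⊤) (φ : Lp X p μ →L[ℝ] ℝ) (ω : Ω) : 0 ≤ hd hp φ ω :=
  ENNReal.toReal_nonneg

lemma integrable_hd (hp : p ≠ ⊤) (φ : Lp X p μ →L[ℝ] ℝ) : Integrable (hd hp φ) μ :=
  Measure.integrable_toReal_rnDeriv

lemma setIntegral_hd (hp : p ≠ ⊤) (φ : Lp X p μ →L[ℝ] ℝ) (A : Set Ω) :
    ∫ ω in A, hd hp φ ω ∂μ = (nu hp φ).real A :=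
  Measure.setIntegral_toReal_rnDeriv (nu_ac hp φ) A

lemma den_le_hd (hp : p ≠ ⊤) (φ : Lp X p μ →L[ℝ] ℝ) (x : X) :
    ∀ᵐ ω ∂μ, den hp φ x ω ≤ hd hp φ ω * ‖x‖ := by
  refine ae_le_of_forall_setIntegral_le (integrable_den hp φ x)
    ((integrable_hd hp φ).mul_const _) (fun A hA _ => ?_)
  rw [integral_mul_const, setIntegral_hd, setIntegral_den hp φ x hA]
  exact (le_abs_self _).trans (abs_le_nu hp φ hA x)

lemma abs_den_le_hd (hp : p ≠ ⊤) (φ : Lp X p μ →L[ℝ] ℝ) (x : X) :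
    ∀ᵐ ω ∂μ, |den hp φ x ω| ≤ hd hp φ ω * ‖x‖ := by
  filter_upwards [den_le_hd hp φ x, den_le_hd hp φ ((-1 : ℝ) • x), den_smul hp φ (-1) x]
    with ω h1 h2 h3
  rw [h3, norm_smul, norm_neg, norm_one, one_mul] at h2
  rw [abs_le]
  constructor <;> linarith

lemma measure_hd_le (hp : p ≠ ⊤) (φ : Lp X p μ →L[ℝ] ℝ) (hφ : ‖φ‖ ≤ 1) (m : ℕ) :
    μ.real {ω | (m : ℝ) + 1 ≤ hd hp φ ω} ≤ 1 / ((m : ℝ) + 1) := by
  have h1 := mul_meas_ge_le_integral_of_nonneg (μ := μ)
    (Eventually.of_forall (fun ω => hd_nonneg hp φ ω)) (integrable_hd hp φ) ((m : ℝ) + 1)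
  have h2 : ∫ ω, hd hp φ ω ∂μ ≤ 1 := by
    rw [← setIntegral_univ, setIntegral_hd]
    exact (nu_univ_le hp φ).trans hφ
  rw [le_div_iff₀ (by positivity), mul_comm]
  exact h1.trans h2

/-- the truncated and normalised density -/
noncomputable def trunc (hp : p ≠ ⊤) (φ : Lp X p μ →L[ℝ] ℝ) (m : ℕ) (x : X) : Ω → ℝ := by
  classical
  exact fun ω => if hd hp φ ω < (m : ℝ) + 1 ∧ |den hp φ x ω| ≤ ((m : ℝ) + 1) * ‖x‖ then
    den hp φ x ω / ((m : ℝ) + 1) else 0

lemma trunc_ae (hp : p ≠ ⊤) (φ : Lp X p μ →L[ℝ] ℝ) (m : ℕ) (x : X) :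
    trunc hp φ m x =ᵐ[μ]
      {ω | hd hp φ ω < (m : ℝ) + 1}.indicator (fun ω => den hp φ x ω / ((m : ℝ) + 1)) := by
  classical
  filter_upwards [abs_den_le_hd hp φ x] with ω h1
  by_cases h2 : hd hp φ ω < (m : ℝ) + 1
  · have h3 : |den hp φ x ω| ≤ ((m : ℝ) + 1) * ‖x‖ :=
      h1.trans (mul_le_mul_of_nonneg_right h2.le (norm_nonneg _))
    simp [trunc, h2, h3]
  · simp [trunc, h2]

lemma fam_trunc (hp : p ≠ ⊤) (φ : ℕ → Lp X p μ →L[ℝ] ℝ) :
    Fam μ (fun m n x => trunc hp (φ n) m x) where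
  meas := fun m n x => by
    classical
    refine Measurable.ite ?_ ((measurable_den hp (φ n) x).div_const _) measurable_const
    exact (measurableSet_lt (measurable_hd hp (φ n)) measurable_const).inter
      (measurableSet_le (measurable_den hp (φ n) x).abs measurable_const)
  bd := fun m n x ω => by
    classical
    simp only [trunc]
    split_ifs with h
    · have hm : (0 : ℝ) < (m : ℝ) + 1 := by positivity
      rw [abs_div, abs_of_pos hm, div_le_iff₀ hm, mul_comm]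
      exact h.2
    · simp
  add := fun m n x y => by
    filter_upwards [trunc_ae hp (φ n) m x, trunc_ae hp (φ n) m y, trunc_ae hp (φ n) m (x + y),
      den_add hp (φ n) x y] with ω h1 h2 h3 h4
    rw [h1, h2, h3]
    by_cases h5 : ω ∈ {ω | hd hp (φ n) ω < (m : ℝ) + 1}
    · simp only [Set.indicator_of_mem h5, h4]
      ring
    · simp only [Set.indicator_of_notMem h5]
      ring
  smul := fun m n c x => by
    filter_upwards [trunc_ae hp (φ n) m x, trunc_ae hp (φ n) m (c • x),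
      den_smul hp (φ n) c x] with ω h1 h3 h4
    rw [h1, h3]
    by_cases h5 : ω ∈ {ω | hd hp (φ n) ω < (m : ℝ) + 1}
    · simp only [Set.indicator_of_mem h5, h4]
      ring
    · simp only [Set.indicator_of_notMem h5]
      ring

/-- **The positive answer**, if the distributivity number is the continuum and larger than `ℵ₁`. -/
theorem wstar_of_distributivity (h1 : distributivityNumber = 𝔠) (h2 : ℵ₁ < distributivityNumber)
    (hp : p ≠ ⊤) (hX : WStarSeqCompact X) : WStarSeqCompact (Lp X p μ) := by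
  classical
  intro φ hφ
  obtain ⟨N, hN, hG⟩ := exists_good h1 h2 hX (fam_trunc hp φ)
  have hne := neBot_inf hN
  refine finish φ hφ N hN (fun f => cv_of_indicators hp φ hφ _ (fun B hB x => ?_) f)
  refine Cv.of_approx (fun ε hε => ?_)
  have h3 : Tendsto (fun m : ℕ => ‖x‖ * (1 / ((m : ℝ) + 1)) ^ (1 / p.toReal)) atTop (𝓝 0) := by
    have := (rpow_tendsto (p := p) hp (tendsto_one_div_add_atTop_nhds_zero_nat (𝕜 := ℝ))).const_mul
      ‖x‖
    simpa using this
  obtain ⟨m, hm⟩ := (h3.eventually_lt_const hε).exists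
  have hm0 : (0 : ℝ) < (m : ℝ) + 1 := by positivity
  refine ⟨fun n => ((m : ℝ) + 1) * ∫ ω in B, trunc hp (φ n) m x ω ∂μ,
    (hG m B hB x).const_mul _, fun n => ?_⟩
  set G : Set Ω := {ω | hd hp (φ n) ω < (m : ℝ) + 1} with hGdef
  have hGm : MeasurableSet G := measurableSet_lt (measurable_hd hp (φ n)) measurable_const
  have hdi := integrable_den hp (φ n) x
  have h4 : ((m : ℝ) + 1) * ∫ ω in B, trunc hp (φ n) m x ω ∂μ = ∫ ω in B ∩ G, den hp (φ n) x ω ∂μ := by
    rw [← integral_const_mul, ← integral_indicator hB, ← integral_indicator (hB.inter hGm)]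
    refine integral_congr_ae ?_
    filter_upwards [trunc_ae hp (φ n) m x] with ω h5
    by_cases h6 : ω ∈ B
    · by_cases h7 : ω ∈ G
      · have h8 : ω ∈ B ∩ G := ⟨h6, h7⟩
        rw [Set.indicator_of_mem h6, Set.indicator_of_mem h8, h5, Set.indicator_of_mem h7]
        field_simp
      · rw [Set.indicator_of_mem h6, Set.indicator_of_notMem (fun h => h7 h.2), h5,
          Set.indicator_of_notMem h7, mul_zero]
    · rw [Set.indicator_of_notMem h6, Set.indicator_of_notMem (fun h => h6 h.1)]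
  have h5 : φ n (indT μ p B x) = ∫ ω in B ∩ G, den hp (φ n) x ω ∂μ +
      φ n (ind μ p (B \ G) (hB.diff hGm) x) := by
    rw [indT_eq hB, ← setIntegral_den hp (φ n) x hB, ← setIntegral_den hp (φ n) x (hB.diff hGm)]
    exact (integral_inter_add_sdiff hGm hdi.integrableOn).symm
  simp only
  rw [h4, h5, add_sub_cancel_left, ← Real.norm_eq_abs]
  refine ((φ n).le_opNorm _).trans ?_
  have h6 := norm_ind_le (μ := μ) (p := p) hp (B \ G) (hB.diff hGm) x
  have h7 : μ.real (B \ G) ≤ 1 / ((m : ℝ) + 1) := by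
    refine (measureReal_mono ?_).trans (measure_hd_le hp (φ n) (hφ n) m)
    intro ω hω
    have h8 : ¬ hd hp (φ n) ω < (m : ℝ) + 1 := hω.2
    exact not_lt.1 h8
  calc ‖φ n‖ * ‖ind μ p (B \ G) (hB.diff hGm) x‖
      ≤ 1 * (‖x‖ * (1 / ((m : ℝ) + 1)) ^ (1 / p.toReal)) := by
        refine mul_le_mul (hφ n) (h6.trans ?_) (norm_nonneg _) zero_le_one
        gcongr
    _ ≤ ε := by
        rw [one_mul]
        exact hm.le

end Pool.Agent.H10Wsc
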