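import Pool.Agent.LpSeq.Final

/-!
Products of functions `w_ξ` with `0 ≤ w_ξ ≤ 2` and `E[w_ξ | R_ξ] = 1` for an increasing family of
σ-algebras `R_ξ` which contain the earlier functions.
-/

set_option autoImplicit false
set_option linter.unusedSectionVars false
open MeasureTheory Filter Topology
open scoped ENNReal

namespace Pool.Agent.H10Wsc

/-- boundedness of a function -/
def Bd {Ω : Type*} (g : Ω → ℝ) : Prop := ∃ C, ∀ ω, |g ω| ≤ C

section bd
variable {Ω : Type*}

lemma Bd.mul {f g : Ω → ℝ} (hf : Bd f) (hg : Bd g) : Bd (fun ω => f ω * g ω) := by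
  obtain ⟨C, hC⟩ := hf
  obtain ⟨D, hD⟩ := hg
  refine ⟨C * D, fun ω => ?_⟩
  rw [abs_mul]
  exact mul_le_mul (hC ω) (hD ω) (abs_nonneg _) ((abs_nonneg _).trans (hC ω))

lemma Bd.sub {f g : Ω → ℝ} (hf : Bd f) (hg : Bd g) : Bd (fun ω => f ω - g ω) := by
  obtain ⟨C, hC⟩ := hf
  obtain ⟨D, hD⟩ := hg
  refine ⟨C + D, fun ω => ?_⟩
  exact (abs_sub _ _).trans (add_le_add (hC ω) (hD ω))

lemma Bd.add {f g : Ω → ℝ} (hf : Bd f) (hg : Bd g) : Bd (fun ω => f ω + g ω) := by
  obtain ⟨C, hC⟩ := hf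
  obtain ⟨D, hD⟩ := hg
  refine ⟨C + D, fun ω => ?_⟩
  exact (abs_add_le _ _).trans (add_le_add (hC ω) (hD ω))

lemma Bd.const (c : ℝ) : Bd (fun _ : Ω => c) := ⟨|c|, fun _ => le_rfl⟩

lemma Bd.integrable [MeasurableSpace Ω] {μ : Measure Ω} [IsFiniteMeasure μ] {f : Ω → ℝ}
    (hf : Bd f) (hm : Measurable f) : Integrable f μ := by
  obtain ⟨C, hC⟩ := hf
  exact Integrable.of_bound hm.aestronglyMeasurable C (Eventually.of_forall hC)

lemma meas_mul {m : MeasurableSpace Ω} {f g : Ω → ℝ} (hf : Measurable[m] f)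
    (hg : Measurable[m] g) : Measurable[m] (fun ω => f ω * g ω) := hf.mul hg

lemma meas_sub_one {m : MeasurableSpace Ω} {f : Ω → ℝ} (hf : Measurable[m] f) :
    Measurable[m] (fun ω => f ω - 1) := hf.sub_const 1

end bd

variable {Ω : Type*} [m0 : MeasurableSpace Ω] {μ : Measure Ω} [IsProbabilityMeasure μ]
variable {K : Type*} [LinearOrder K]

variable (μ) in
/-- the conditions on the functions and the σ-algebras -/
structure Mart (w : K → Ω → ℝ) (R : K → MeasurableSpace Ω) : Prop where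
  le : ∀ ξ, R ξ ≤ m0
  mono : ∀ ξ η, η < ξ → R η ≤ R ξ
  meas : ∀ ξ η, η < ξ → Measurable[R ξ] (w η)
  meas0 : ∀ η, Measurable (w η)
  nonneg : ∀ ξ ω, 0 ≤ w ξ ω
  le_two : ∀ ξ ω, w ξ ω ≤ 2
  orth : ∀ ξ, ∀ g : Ω → ℝ, Measurable[R ξ] g → Bd g → ∫ ω, g ω * (w ξ ω - 1) ∂μ = 0

variable {w : K → Ω → ℝ} {R : K → MeasurableSpace Ω}

/-- the product -/
def prodW (w : K → Ω → ℝ) (F : Finset K) (ω : Ω) : ℝ := ∏ η ∈ F, w η ω

lemma bd_w (h : Mart μ w R) (ξ : K) : Bd (w ξ) :=
  ⟨2, fun ω => by rw [abs_of_nonneg (h.nonneg ξ ω)]; exact h.le_two ξ ω⟩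

lemma prodW_nonneg (h : Mart μ w R) (F : Finset K) (ω : Ω) : 0 ≤ prodW w F ω :=
  Finset.prod_nonneg (fun η _ => h.nonneg η ω)

lemma bd_prodW (h : Mart μ w R) (F : Finset K) : Bd (prodW w F) := by
  classical
  induction F using Finset.induction_on with
  | empty => exact ⟨1, fun ω => by simp [prodW]⟩
  | insert a F ha ih =>
    have h1 : prodW w (insert a F) = fun ω => w a ω * prodW w F ω := by
      ext ω
      simp [prodW, Finset.prod_insert ha]
    rw [h1]
    exact (bd_w h a).mul ih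

lemma measurable_prodW (F : Finset K) (m : MeasurableSpace Ω)
    (hF : ∀ η ∈ F, Measurable[m] (w η)) : Measurable[m] (prodW w F) :=
  @Finset.measurable_prod ℝ K Ω _ _ _ m _ F hF

lemma measurable_prodW0 (h : Mart μ w R) (F : Finset K) : Measurable (prodW w F) :=
  measurable_prodW F m0 (fun η _ => h.meas0 η)

/-- the functions whose integrals do not see the factor `w η` -/
def NoJump (μ : Measure Ω) (w : K → Ω → ℝ) (R : K → MeasurableSpace Ω) (y : Ω → ℝ) (η : K) :
    Prop :=
  ∀ g : Ω → ℝ, Measurable[R η] g → Bd g → ∫ ω, (g ω * (w η ω - 1)) * y ω ∂μ = 0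

lemma integral_prodW_mul (h : Mart μ w R) (y : Ω → ℝ) (hy : Measurable y) (hb : Bd y)
    (F : Finset K) (hF : ∀ η ∈ F, NoJump μ w R y η) :
    ∫ ω, prodW w F ω * y ω ∂μ = ∫ ω, y ω ∂μ := by
  classical
  induction F using Finset.induction_on_max with
  | empty => simp [prodW]
  | insert a F ha ih =>
    have ha' : a ∉ F := fun hmem => lt_irrefl _ (ha a hmem)
    have h1 : ∀ ω, prodW w (insert a F) ω * y ω =
        (prodW w F ω * (w a ω - 1)) * y ω + prodW w F ω * y ω := by
      intro ω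
      have : prodW w (insert a F) ω = w a ω * prodW w F ω := by
        simp [prodW, Finset.prod_insert ha']
      rw [this]
      ring
    simp only [h1]
    have hm := measurable_prodW0 h F
    have hbF := bd_prodW h F
    rw [integral_add]
    · rw [ih (fun η hη => hF η (Finset.mem_insert_of_mem hη))]
      rw [hF a (Finset.mem_insert_self a F) (prodW w F) ?_ hbF, zero_add]
      exact measurable_prodW F _ (fun η hη => h.meas a η (ha η hη))
    · exact ((hbF.mul ((bd_w h a).sub (Bd.const 1))).mul hb).integrable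
        ((hm.mul ((h.meas0 a).sub_const 1)).mul hy)
    · exact (hbF.mul hb).integrable (hm.mul hy)

lemma integral_prodW (h : Mart μ w R) (F : Finset K) : ∫ ω, prodW w F ω ∂μ = 1 := by
  have h1 := integral_prodW_mul h (fun _ => 1) measurable_const (Bd.const 1) F (by
    intro η _ g hg hgb
    simp only [mul_one]
    exact h.orth η g hg hgb)
  simpa using h1

lemma integral_prodW_mul_of_mem (h : Mart μ w R) (ξ : K) (t : Ω → ℝ) (ht : Measurable t)
    (hb : Bd t) (htR : ∀ a, ξ < a → Measurable[R a] t) (F : Finset K) (hξ : ξ ∈ F)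
    (hF : ∀ η ∈ F, η < ξ → NoJump μ w R (fun ω => w ξ ω * t ω) η) :
    ∫ ω, prodW w F ω * t ω ∂μ = ∫ ω, w ξ ω * t ω ∂μ := by
  classical
  induction F using Finset.induction_on_max with
  | empty => simp at hξ
  | insert a F ha ih =>
    have ha' : a ∉ F := fun hmem => lt_irrefl _ (ha a hmem)
    have h0 : ∀ ω, prodW w (insert a F) ω = w a ω * prodW w F ω := by
      intro ω
      simp [prodW, Finset.prod_insert ha']
    have hm := measurable_prodW0 h F
    have hbF := bd_prodW h F
    rcases Finset.mem_insert.1 hξ with rfl | hξF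
    · have h1 : ∀ ω, prodW w (insert ξ F) ω * t ω = prodW w F ω * (w ξ ω * t ω) := by
        intro ω
        rw [h0]
        ring
      simp only [h1]
      refine integral_prodW_mul h _ ((h.meas0 ξ).mul ht) ((bd_w h ξ).mul hb) F (fun η hη => ?_)
      exact hF η (Finset.mem_insert_of_mem hη) (ha η hη)
    · have hlt : ξ < a := ha ξ hξF
      have h1 : ∀ ω, prodW w (insert a F) ω * t ω =
          (prodW w F ω * t ω) * (w a ω - 1) + prodW w F ω * t ω := by
        intro ω
        rw [h0]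
        ring
      simp only [h1]
      rw [integral_add]
      · rw [ih hξF (fun η hη hlt => hF η (Finset.mem_insert_of_mem hη) hlt)]
        rw [h.orth a (fun ω => prodW w F ω * t ω) ?_ (hbF.mul hb), zero_add]
        have hm2 : Measurable[R a] (prodW w F) :=
          measurable_prodW F _ (fun η hη => h.meas a η (ha η hη))
        exact meas_mul hm2 (htR a hlt)
      · exact ((hbF.mul hb).mul ((bd_w h a).sub (Bd.const 1))).integrable
          ((hm.mul ht).mul ((h.meas0 a).sub_const 1))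
      · exact (hbF.mul hb).integrable (hm.mul ht)

/-- a bounded function sees only countably many of the factors -/
lemma countable_jump (h : Mart μ w R) (y : Ω → ℝ) (hy : Measurable y) (hb : Bd y) :
    {η | ¬ NoJump μ w R y η}.Countable := by
  classical
  set J : Set K := {η | ¬ NoJump μ w R y η} with hJ
  have h1 : ∀ η : J, ∃ g : Ω → ℝ, Measurable[R η.1] g ∧ Bd g ∧
      ∫ ω, (g ω * (w η.1 ω - 1)) * y ω ∂μ ≠ 0 := by
    intro η
    have h2 := η.2
    simp only [hJ, Set.mem_ofPred_eq, NoJump, not_forall] at h2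
    obtain ⟨g, hg, hgb, hne⟩ := h2
    exact ⟨g, hg, hgb, hne⟩
  choose g hg hgb hgne using h1
  set v : J → Ω → ℝ := fun η ω => g η ω * (w η.1 ω - 1) with hv
  have hg0 : ∀ η, Measurable (g η) := fun η => (hg η).mono (h.le _) le_rfl
  have hvm : ∀ η, Measurable (v η) := fun η => (hg0 η).mul ((h.meas0 _).sub_const 1)
  have hvb : ∀ η, Bd (v η) := fun η => (hgb η).mul ((bd_w h _).sub (Bd.const 1))
  have hmem : ∀ f : Ω → ℝ, Measurable f → Bd f → MemLp f 2 μ := by
    intro f hf hfb
    obtain ⟨C, hC⟩ := hfb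
    exact MemLp.of_bound hf.aestronglyMeasurable C (Eventually.of_forall hC)
  set V : J → Lp ℝ 2 μ := fun η => (hmem (v η) (hvm η) (hvb η)).toLp (v η) with hV
  set Y : Lp ℝ 2 μ := (hmem y hy hb).toLp y with hY
  have hinner : ∀ (f f' : Ω → ℝ) (hf : MemLp f 2 μ) (hf' : MemLp f' 2 μ),
      inner ℝ (hf.toLp f) (hf'.toLp f') = ∫ ω, f ω * f' ω ∂μ := by
    intro f f' hf hf'
    rw [L2.inner_def]
    refine integral_congr_ae ?_
    filter_upwards [hf.coeFn_toLp, hf'.coeFn_toLp] with ω h3 h4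
    rw [h3, h4]
    simp [mul_comm]
  have horth : ∀ η η' : J, η.1 < η'.1 → ∫ ω, v η ω * v η' ω ∂μ = 0 := by
    intro η η' hlt
    have h3 : ∀ ω, v η ω * v η' ω = (v η ω * g η' ω) * (w η'.1 ω - 1) := by
      intro ω
      simp only [hv]
      ring
    simp only [h3]
    refine h.orth η'.1 (fun ω => v η ω * g η' ω) ?_ ((hvb η).mul (hgb η'))
    have h4 : Measurable[R η'.1] (g η) := (hg η).mono (h.mono _ _ hlt) le_rfl
    have h5 : Measurable[R η'.1] (fun ω => w η.1 ω - 1) := meas_sub_one (h.meas _ _ hlt)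
    exact meas_mul (meas_mul h4 h5) (hg η')
  have hVY : ∀ η, inner ℝ (V η) Y ≠ 0 := by
    intro η
    rw [hV, hY, hinner]
    exact hgne η
  have hV0 : ∀ η, ‖V η‖ ≠ 0 := by
    intro η h0
    apply hVY η
    rw [norm_eq_zero.1 h0, inner_zero_left]
  have hVV : ∀ η η', η ≠ η' → inner ℝ (V η) (V η') = 0 := by
    intro η η' hne
    rw [hV, hinner]
    rcases lt_trichotomy η.1 η'.1 with h3 | h3 | h3
    · exact horth η η' h3
    · exact absurd (Subtype.ext h3) hne
    · rw [← horth η' η h3]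
      congr 1
      ext ω
      ring
  have hon : Orthonormal ℝ (fun η => (‖V η‖⁻¹ : ℝ) • V η) := by
    refine ⟨fun η => ?_, fun η η' hne => ?_⟩
    · rw [norm_smul, norm_inv, norm_norm, inv_mul_cancel₀ (hV0 η)]
    · simp only [inner_smul_left, inner_smul_right, hVV η η' hne, mul_zero]
  have hs := hon.inner_products_summable Y
  have hc := hs.countable_support
  have huniv : Function.support (fun η => ‖inner ℝ ((‖V η‖⁻¹ : ℝ) • V η) Y‖ ^ 2) = Set.univ := by
    rw [Set.eq_univ_iff_forall]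
    intro η
    rw [Function.mem_support]
    refine pow_ne_zero _ (norm_ne_zero_iff.2 ?_)
    rw [inner_smul_left]
    exact mul_ne_zero (by simpa using hV0 η) (hVY η)
  rw [huniv] at hc
  have h6 : Countable J := Set.countable_univ_iff.1 hc
  exact Set.countable_coe_iff.1 h6

end Pool.Agent.H10Wsc
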