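import Mathlib

/-!
A random function `th r : I → {-1,0,1}` on a well-ordered set `I` all of whose initial segments are
countable.  At the place `b` the value is a fair sign, unless one of the sums of the earlier values
over the first `8^n` members of an earlier listed sequence is larger than `4^n` (for one of the
relevant `n`); in this case it is `0`.
-/

set_option autoImplicit false
open MeasureTheory Filter Topology
open scoped ENNReal

namespace Pool.Agent.H10Wsc

variable {I : Type} [LinearOrder I] [WellFoundedLT I]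

/-- the condition under which a function may be nonzero at `b` -/
def Adm (e : I → ℕ → I) (N : I → I → ℕ) (k : I → ℝ) (b : I) : Prop :=
  ∀ ξ, ξ < b → Function.Injective (e ξ) → (∀ i, e ξ i < b) →
    ∀ n, N b ξ + 3 ≤ n → |∑ i ∈ Finset.range (8 ^ n), k (e ξ i)| ≤ 4 ^ n

open Classical in
/-- the recursion step -/
noncomputable def thStep (e : I → ℕ → I) (N : I → I → ℕ) (r : I → Bool) (b : I)
    (f : ∀ c, c < b → ℝ) : ℝ :=
  if Adm e N (fun c => if h : c < b then f c h else 0) b then (if r b then 1 else -1) else 0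

/-- the random function -/
noncomputable def th (e : I → ℕ → I) (N : I → I → ℕ) (r : I → Bool) : I → ℝ :=
  (wellFounded_lt (α := I)).fix (thStep e N r)

variable (e : I → ℕ → I) (N : I → I → ℕ)

lemma adm_congr {k k' : I → ℝ} {b : I} (h : ∀ c, c < b → k c = k' c) :
    Adm e N k b ↔ Adm e N k' b := by
  unfold Adm
  refine forall_congr' (fun ξ => forall_congr' (fun _ => forall_congr' (fun _ =>
    forall_congr' (fun hlt => forall_congr' (fun n => forall_congr' (fun _ => ?_))))))
  rw [Finset.sum_congr rfl (fun i _ => h _ (hlt i))]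

open Classical in
lemma th_eq (r : I → Bool) (b : I) :
    th e N r b = if Adm e N (th e N r) b then (if r b then 1 else -1) else 0 := by
  have h : th e N r b = thStep e N r b (fun c _ => th e N r c) :=
    (wellFounded_lt (α := I)).fix_eq (thStep e N r) b
  rw [h, thStep]
  have h2 : Adm e N (fun c => if _h : c < b then th e N r c else 0) b ↔ Adm e N (th e N r) b :=
    adm_congr e N (fun c hc => by simp [hc])
  simp only [h2]

lemma adm_of_ne_zero (r : I → Bool) (b : I) (h : th e N r b ≠ 0) : Adm e N (th e N r) b := by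
  classical
  by_contra hcon
  apply h
  rw [th_eq, if_neg hcon]

lemma abs_th_le (r : I → Bool) (b : I) : |th e N r b| ≤ 1 := by
  classical
  rw [th_eq]
  split_ifs <;> simp

lemma th_congr (r r' : I → Bool) (b : I) (h : ∀ c, c ≤ b → r c = r' c) :
    th e N r b = th e N r' b := by
  classical
  induction b using WellFoundedLT.induction with
  | ind b ih =>
    rw [th_eq, th_eq]
    have h1 : Adm e N (th e N r) b ↔ Adm e N (th e N r') b :=
      adm_congr e N (fun c hc => ih c hc (fun d hd => h d (hd.trans hc.le)))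
    simp only [h1, h b le_rfl]

/-- coordinatewise exclusive or -/
def tr (t : I → Bool) (r : I → Bool) : I → Bool := fun i => xor (r i) (t i)

omit [LinearOrder I] [WellFoundedLT I] in
lemma tr_tr (t r : I → Bool) : tr t (tr t r) = r := by
  ext i
  simp [tr]

/-- the fair coin -/
noncomputable def coin : Measure Bool := (PMF.uniformOfFintype Bool).toMeasure

instance : IsProbabilityMeasure coin := by unfold coin; infer_instance

lemma coin_map (c : Bool) : coin.map (fun x => xor x c) = coin := by
  have hm : Measurable (fun x : Bool => xor x c) := measurable_of_finite _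
  refine Measure.ext_of_singleton (fun a => ?_)
  rw [Measure.map_apply hm (MeasurableSet.singleton a)]
  have h1 : (fun x : Bool => xor x c) ⁻¹' {a} = {xor a c} := by
    ext x
    simp only [Set.mem_preimage, Set.mem_singleton_iff]
    cases x <;> cases c <;> cases a <;> simp
  rw [h1, coin, PMF.toMeasure_apply_singleton _ _ (MeasurableSet.singleton _),
    PMF.toMeasure_apply_singleton _ _ (MeasurableSet.singleton _)]
  simp

variable (I) in
/-- the product of fair coins -/
noncomputable def mu : Measure (I → Bool) := Measure.infinitePi (fun _ : I => coin)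

instance : IsProbabilityMeasure (mu I) := by unfold mu; infer_instance

omit [LinearOrder I] [WellFoundedLT I] in
lemma mp_tr (t : I → Bool) : MeasurePreserving (tr t) (mu I) (mu I) := by
  refine ⟨?_, ?_⟩
  · refine measurable_pi_lambda _ (fun i => ?_)
    exact (measurable_of_finite (fun x : Bool => xor x (t i))).comp (measurable_pi_apply i)
  · have h := Measure.infinitePi_map_pi (μ := fun _ : I => coin)
      (f := fun i (x : Bool) => xor x (t i)) (fun i => measurable_of_finite _)
    unfold mu
    have h2 : (tr t : (I → Bool) → (I → Bool)) = fun x i => xor (x i) (t i) := rfl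
    rw [h2, h]
    congr 1
    ext1 i
    exact coin_map (t i)

/-- initial segments are countable -/
def CountableSeg (I : Type) [LinearOrder I] : Prop := ∀ b : I, (Set.Iio b).Countable

lemma measurableSet_adm (hI : CountableSeg I) {Ω : Type} [MeasurableSpace Ω] (f : Ω → I → ℝ) (b : I)
    (hf : ∀ c, c < b → Measurable (fun r => f r c)) :
    MeasurableSet {r | Adm e N (f r) b} := by
  have h1 : {r | Adm e N (f r) b} = ⋂ ξ ∈ Set.Iio b, {r | Function.Injective (e ξ) →
      (∀ i, e ξ i < b) → ∀ n, N b ξ + 3 ≤ n →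
        |∑ i ∈ Finset.range (8 ^ n), f r (e ξ i)| ≤ 4 ^ n} := by
    ext r
    simp [Adm]
  rw [h1]
  refine MeasurableSet.biInter (hI b) (fun ξ _ => ?_)
  by_cases h2 : Function.Injective (e ξ)
  · by_cases h3 : ∀ i, e ξ i < b
    · have h4 : {r | Function.Injective (e ξ) →
          (∀ i, e ξ i < b) → ∀ n, N b ξ + 3 ≤ n →
            |∑ i ∈ Finset.range (8 ^ n), f r (e ξ i)| ≤ 4 ^ n} =
          ⋂ n ∈ Set.Ici (N b ξ + 3), {r | |∑ i ∈ Finset.range (8 ^ n), f r (e ξ i)| ≤ 4 ^ n} := by
        ext r
        simp [h2, h3]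
      rw [h4]
      refine MeasurableSet.biInter (Set.to_countable _) (fun n _ => ?_)
      refine measurableSet_le (Measurable.abs ?_) measurable_const
      exact Finset.measurable_sum _ (fun i _ => hf _ (h3 i))
    · have h4 : {r | Function.Injective (e ξ) →
          (∀ i, e ξ i < b) → ∀ n, N b ξ + 3 ≤ n →
            |∑ i ∈ Finset.range (8 ^ n), f r (e ξ i)| ≤ 4 ^ n} = Set.univ := by
        ext r
        simp only [Set.mem_ofPred_eq, Set.mem_univ, iff_true]
        exact fun _ h => absurd h h3
      rw [h4]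
      exact MeasurableSet.univ
  · have h4 : {r | Function.Injective (e ξ) →
          (∀ i, e ξ i < b) → ∀ n, N b ξ + 3 ≤ n →
            |∑ i ∈ Finset.range (8 ^ n), f r (e ξ i)| ≤ 4 ^ n} = Set.univ := by
      ext r
      simp only [Set.mem_ofPred_eq, Set.mem_univ, iff_true]
      exact fun h => absurd h h2
    rw [h4]
    exact MeasurableSet.univ

lemma measurable_th (hI : CountableSeg I) (b : I) : Measurable (fun r => th e N r b) := by
  classical
  induction b using WellFoundedLT.induction with
  | ind b ih =>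
    have h1 : (fun r => th e N r b) =
        fun r => if r ∈ {r | Adm e N (th e N r) b} then (if r b then (1 : ℝ) else -1) else 0 := by
      ext r
      rw [th_eq]
      rfl
    rw [h1]
    refine Measurable.ite (measurableSet_adm e N hI _ b ih) ?_ measurable_const
    exact (measurable_of_finite (fun x : Bool => if x then (1 : ℝ) else -1)).comp
      (measurable_pi_apply b)

/-- flipping one coordinate -/
def flip (b : I) : I → Bool := fun i => decide (i = b)

lemma th_flip_lt {b c : I} (h : c < b) (r : I → Bool) : th e N (tr (flip b) r) c = th e N r c := by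
  refine th_congr e N _ _ _ (fun d hd => ?_)
  have : d ≠ b := (hd.trans_lt h).ne
  simp [tr, flip, this]

lemma adm_flip (b : I) (r : I → Bool) :
    Adm e N (th e N (tr (flip b) r)) b ↔ Adm e N (th e N r) b :=
  adm_congr e N (fun _ hc => th_flip_lt e N hc r)

lemma th_flip_self (b : I) (r : I → Bool) : th e N (tr (flip b) r) b = - th e N r b := by
  classical
  rw [th_eq, th_eq]
  simp only [adm_flip]
  by_cases h : Adm e N (th e N r) b
  · simp only [h, if_true]
    have h2 : tr (flip b) r b = !(r b) := by simp [tr, flip]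
    rw [h2]
    cases r b <;> simp
  · simp [h]

lemma integral_mul_eq_zero (hI : CountableSeg I) {b c : I} (h : c < b) :
    ∫ r, th e N r c * th e N r b ∂(mu I) = 0 := by
  have h1 := (mp_tr (flip b)).integral_comp' (f := MeasurableEquiv.mk
    ⟨tr (flip b), tr (flip b), tr_tr _, tr_tr _⟩ (mp_tr (flip b)).measurable
      (mp_tr (flip b)).measurable) (fun r => th e N r c * th e N r b)
  have h2 : ∀ r : I → Bool, th e N (tr (flip b) r) c * th e N (tr (flip b) r) b =
      - (th e N r c * th e N r b) := by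
    intro r
    rw [th_flip_lt e N h, th_flip_self]
    ring
  have h3 : ∫ r, th e N (tr (flip b) r) c * th e N (tr (flip b) r) b ∂(mu I) =
      ∫ r, th e N r c * th e N r b ∂(mu I) := h1
  simp only [h2, integral_neg] at h3
  linarith

lemma integrable_mul (hI : CountableSeg I) (b c : I) :
    Integrable (fun r => th e N r c * th e N r b) (mu I) := by
  refine Integrable.of_bound ((measurable_th e N hI c).mul
    (measurable_th e N hI b)).aestronglyMeasurable 1 (Eventually.of_forall (fun r => ?_))
  rw [Real.norm_eq_abs, abs_mul]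
  have h1 := abs_th_le e N r c
  have h2 := abs_th_le e N r b
  have h3 := abs_nonneg (th e N r c)
  nlinarith [abs_nonneg (th e N r b)]

lemma integral_sq_le (hI : CountableSeg I) (s : ℕ → I) (hs : Function.Injective s) (m : ℕ) :
    ∫ r, (∑ i ∈ Finset.range m, th e N r (s i)) ^ 2 ∂(mu I) ≤ m := by
  have h1 : ∀ r : I → Bool, (∑ i ∈ Finset.range m, th e N r (s i)) ^ 2 =
      ∑ i ∈ Finset.range m, ∑ j ∈ Finset.range m, th e N r (s i) * th e N r (s j) := by
    intro r
    rw [sq, Finset.sum_mul_sum]
  simp only [h1]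
  rw [integral_finsetSum _ (fun i _ => integrable_finsetSum _ (fun j _ => integrable_mul e N hI _ _))]
  have h2 : ∀ i ∈ Finset.range m, ∫ r, ∑ j ∈ Finset.range m, th e N r (s i) * th e N r (s j)
      ∂(mu I) ≤ 1 := by
    intro i hi
    rw [integral_finsetSum _ (fun j _ => integrable_mul e N hI _ _)]
    rw [Finset.sum_eq_single_of_mem i hi]
    · calc ∫ r, th e N r (s i) * th e N r (s i) ∂(mu I) ≤ ∫ _r, (1 : ℝ) ∂(mu I) := by
            refine integral_mono (integrable_mul e N hI _ _) (integrable_const _) (fun r => ?_)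
            have h3 := abs_th_le e N r (s i)
            rw [abs_le] at h3
            simp only
            nlinarith
        _ = 1 := by simp
    · intro j _ hji
      rcases lt_trichotomy (s i) (s j) with h | h | h
      · exact integral_mul_eq_zero e N hI h
      · exact absurd (hs h).symm hji
      · have := integral_mul_eq_zero e N hI h
        rw [← this]
        congr 1
        ext r
        ring
  calc ∑ i ∈ Finset.range m, ∫ r, ∑ j ∈ Finset.range m, th e N r (s i) * th e N r (s j) ∂(mu I)
      ≤ ∑ _i ∈ Finset.range m, (1 : ℝ) := Finset.sum_le_sum h2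
    _ = m := by simp

lemma measure_big_le (hI : CountableSeg I) (s : ℕ → I) (hs : Function.Injective s) (n : ℕ) :
    (mu I) {r | ¬ |∑ i ∈ Finset.range (8 ^ n), th e N r (s i)| ≤ 4 ^ n} ≤
      (2⁻¹ : ℝ≥0∞) ^ n := by
  have h1 := integral_sq_le e N hI s hs (8 ^ n)
  have hint : Integrable (fun r => (∑ i ∈ Finset.range (8 ^ n), th e N r (s i)) ^ 2) (mu I) := by
    have h1 : ∀ r : I → Bool, (∑ i ∈ Finset.range (8 ^ n), th e N r (s i)) ^ 2 =
      ∑ i ∈ Finset.range (8 ^ n), ∑ j ∈ Finset.range (8 ^ n),
        th e N r (s i) * th e N r (s j) := by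
      intro r
      rw [sq, Finset.sum_mul_sum]
    simp only [h1]
    exact integrable_finsetSum _ (fun i _ => integrable_finsetSum _
      (fun j _ => integrable_mul e N hI _ _))
  have h2 := mul_meas_ge_le_integral_of_nonneg (μ := mu I)
    (Eventually.of_forall (fun r => sq_nonneg (∑ i ∈ Finset.range (8 ^ n), th e N r (s i))))
    hint ((16 : ℝ) ^ n)
  have h3 : (mu I).real {r | (16 : ℝ) ^ n ≤ (∑ i ∈ Finset.range (8 ^ n), th e N r (s i)) ^ 2} ≤
      (2⁻¹ : ℝ) ^ n := by
    have h4 : (16 : ℝ) ^ n * (mu I).real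
        {r | (16 : ℝ) ^ n ≤ (∑ i ∈ Finset.range (8 ^ n), th e N r (s i)) ^ 2} ≤ 8 ^ n := by
      refine h2.trans (h1.trans (le_of_eq ?_))
      push_cast
      rfl
    have h5 : (8 : ℝ) ^ n = 16 ^ n * (2⁻¹) ^ n := by
      rw [← mul_pow]
      norm_num
    rw [h5] at h4
    exact le_of_mul_le_mul_left h4 (by positivity)
  have h4 : (mu I) {r | (16 : ℝ) ^ n ≤ (∑ i ∈ Finset.range (8 ^ n), th e N r (s i)) ^ 2} ≤
      (2⁻¹ : ℝ≥0∞) ^ n := by
    rw [← ofReal_measureReal]
    calc ENNReal.ofReal ((mu I).real
        {r | (16 : ℝ) ^ n ≤ (∑ i ∈ Finset.range (8 ^ n), th e N r (s i)) ^ 2})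
        ≤ ENNReal.ofReal ((2⁻¹ : ℝ) ^ n) := ENNReal.ofReal_le_ofReal h3
      _ = (2⁻¹ : ℝ≥0∞) ^ n := by
          rw [ENNReal.ofReal_pow (by norm_num), ENNReal.ofReal_inv_of_pos (by norm_num)]
          norm_num
  refine le_trans (measure_mono (fun r hr => ?_)) h4
  simp only [Set.mem_ofPred_eq, not_le] at hr ⊢
  have h6 : ((4 : ℝ) ^ n) ^ 2 ≤ |∑ i ∈ Finset.range (8 ^ n), th e N r (s i)| ^ 2 := by
    gcongr
  rw [sq_abs] at h6
  calc (16 : ℝ) ^ n = ((4 : ℝ) ^ n) ^ 2 := by rw [← pow_mul, mul_comm, pow_mul]; norm_num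
    _ ≤ _ := h6

lemma measure_not_adm_le (hI : CountableSeg I) (hN : ∀ b, Set.InjOn (N b) (Set.Iio b)) (b : I) :
    (mu I) {r | ¬ Adm e N (th e N r) b} ≤ 2⁻¹ := by
  classical
  have hc : Countable (Set.Iio b) := (hI b).to_subtype
  have h1 : {r | ¬ Adm e N (th e N r) b} ⊆ ⋃ ξ : Set.Iio b, ⋃ j : ℕ,
      {r | Function.Injective (e ξ) ∧
        ¬ |∑ i ∈ Finset.range (8 ^ (N b ξ + 3 + j)), th e N r (e ξ i)| ≤
          4 ^ (N b ξ + 3 + j)} := by
    intro r hr
    simp only [Set.mem_ofPred_eq, Adm, not_forall] at hr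
    obtain ⟨ξ, hξ, hinj, hlt, n, hn, hbig⟩ := hr
    simp only [Set.mem_iUnion]
    refine ⟨⟨ξ, hξ⟩, n - (N b ξ + 3), hinj, ?_⟩
    have : N b ξ + 3 + (n - (N b ξ + 3)) = n := by omega
    simp only [this]
    exact hbig
  have h2 : ∀ ξ : Set.Iio b, ∀ j : ℕ, (mu I) {r | Function.Injective (e ξ) ∧
        ¬ |∑ i ∈ Finset.range (8 ^ (N b ξ + 3 + j)), th e N r (e ξ i)| ≤
          4 ^ (N b ξ + 3 + j)} ≤ (2⁻¹ : ℝ≥0∞) ^ (N b ξ + 3 + j) := by
    intro ξ j
    by_cases hinj : Function.Injective (e ξ)
    · refine le_trans (measure_mono (fun r hr => hr.2)) (measure_big_le e N hI _ hinj _)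
    · have : {r | Function.Injective (e ξ) ∧
        ¬ |∑ i ∈ Finset.range (8 ^ (N b ξ + 3 + j)), th e N r (e ξ i)| ≤
          4 ^ (N b ξ + 3 + j)} = (∅ : Set (I → Bool)) := by
        ext r
        simp [hinj]
      rw [this, measure_empty]
      exact zero_le
  calc (mu I) {r | ¬ Adm e N (th e N r) b}
      ≤ ∑' ξ : Set.Iio b, ∑' j : ℕ, (2⁻¹ : ℝ≥0∞) ^ (N b ξ + 3 + j) := by
        refine (measure_mono h1).trans ((measure_iUnion_le _).trans ?_)
        refine ENNReal.tsum_le_tsum (fun ξ => (measure_iUnion_le _).trans ?_)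
        exact ENNReal.tsum_le_tsum (fun j => h2 ξ j)
    _ = ∑' ξ : Set.Iio b, (2⁻¹ : ℝ≥0∞) ^ (N b ξ + 2) := by
        refine tsum_congr (fun ξ => ?_)
        simp only [pow_add]
        rw [ENNReal.tsum_mul_left, ENNReal.tsum_geometric]
        have : (1 - 2⁻¹ : ℝ≥0∞)⁻¹ = 2 := by
          rw [ENNReal.one_sub_inv_two, inv_inv]
        rw [this]
        rw [mul_assoc]
        congr 1
        rw [pow_succ, mul_assoc, ENNReal.inv_mul_cancel (by norm_num) (by norm_num), mul_one]
    _ ≤ ∑' j : ℕ, (2⁻¹ : ℝ≥0∞) ^ (j + 2) := by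
        have hinj : Function.Injective (fun ξ : Set.Iio b => N b ξ) :=
          fun x y hxy => Subtype.ext (hN b x.2 y.2 hxy)
        exact ENNReal.tsum_comp_le_tsum_of_injective hinj (fun j => (2⁻¹ : ℝ≥0∞) ^ (j + 2))
    _ = 2⁻¹ := by
        simp only [pow_add]
        rw [ENNReal.tsum_mul_right, ENNReal.tsum_geometric, ENNReal.one_sub_inv_two, inv_inv,
          sq, ← mul_assoc, ENNReal.mul_inv_cancel (by norm_num) (by norm_num), one_mul]

end Pool.Agent.H10Wsc
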