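import Pool.Agent.H10Wsc.Step

/-!
If the distributivity number is the continuum and is larger than `ℵ₁` then there is a common set
of convergence.
-/

set_option autoImplicit false
set_option linter.unusedSectionVars false
open MeasureTheory Filter Topology Cardinal Pool.Agent.LpSeq
open scoped ENNReal symmDiff

namespace Pool.Agent.H10Wsc

lemma exists_rec {K : Type*} [LinearOrder K] [WellFoundedLT K] {β : Type*}
    (P : ∀ ξ : K, (∀ η, η < ξ → β) → β → Prop) (h : ∀ ξ f, ∃ b, P ξ f b) :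
    ∃ D : K → β, ∀ ξ, P ξ (fun η _ => D η) (D ξ) := by
  choose F hF using h
  refine ⟨(wellFounded_lt (α := K)).fix F, fun ξ => ?_⟩
  have h1 := hF ξ (fun η _ => (wellFounded_lt (α := K)).fix F η)
  rw [← (wellFounded_lt (α := K)).fix_eq F ξ] at h1
  exact h1

/-- colouring with uncountably many colours -/
lemma exists_coloring {K : Type*} [LinearOrder K] [WellFoundedLT K] {C : Type*}
    (hC : ¬ (Set.univ : Set C).Countable) (J : K → Set K) (hJ : ∀ ξ, (J ξ).Countable) :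
    ∃ χ : K → C, ∀ ξ η, η < ξ → η ∈ J ξ → χ η ≠ χ ξ := by
  classical
  obtain ⟨χ, hχ⟩ := exists_rec (K := K) (β := C)
    (fun ξ f c => ∀ η (h : η < ξ), η ∈ J ξ → f η h ≠ c) (fun ξ f => by
      by_contra hcon
      push Not at hcon
      apply hC
      have hcJ : Countable (J ξ) := (hJ ξ).to_subtype
      have h1 : (Set.univ : Set C) ⊆
          ⋃ η : J ξ, {c | ∃ h : η.1 < ξ, f η.1 h = c} := by
        intro c _
        obtain ⟨η, hlt, hη, hc⟩ := hcon c
        rw [Set.mem_iUnion]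
        exact ⟨⟨η, hη⟩, hlt, hc⟩
      refine (Set.countable_iUnion (fun η => ?_)).mono h1
      refine Set.Subsingleton.countable (fun a ha b hb => ?_)
      obtain ⟨_, rfl⟩ := ha
      obtain ⟨_, rfl⟩ := hb
      rfl)
  exact ⟨χ, fun ξ η hlt hη => hχ ξ η hlt hη⟩

/-- limits of functionals along an ultrafilter -/
lemma exists_ultra_lim {X : Type*} [NormedAddCommGroup X] [NormedSpace ℝ X] {ι : Type*}
    (𝒰 : Ultrafilter ι) (u : ι → (X →L[ℝ] ℝ)) (hu : ∀ i, ‖u i‖ ≤ 1) :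
    ∃ z : X →L[ℝ] ℝ, ‖z‖ ≤ 1 ∧ ∀ x, Tendsto (fun i => u i x) 𝒰 (𝓝 (z x)) := by
  have hb : ∀ i x, |u i x| ≤ ‖x‖ := by
    intro i x
    rw [← Real.norm_eq_abs]
    refine ((u i).le_opNorm x).trans ?_
    calc ‖u i‖ * ‖x‖ ≤ 1 * ‖x‖ := by gcongr; exact hu i
      _ = ‖x‖ := one_mul _
  have hlim : ∀ x, ∃ l : ℝ, Tendsto (fun i => u i x) 𝒰 (𝓝 l) := by
    intro x
    obtain ⟨l, -, hl⟩ := (isCompact_Icc (a := -‖x‖) (b := ‖x‖)).ultrafilter_le_nhds
      (𝒰.map (fun i => u i x)) (by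
        rw [le_principal_iff]
        refine Eventually.of_forall (f := (𝒰 : Filter ι)) (fun i => ?_)
        exact abs_le.1 (hb i x))
    exact ⟨l, hl⟩
  choose L hL using hlim
  have hLb : ∀ x, |L x| ≤ 1 * ‖x‖ := by
    intro x
    rw [one_mul]
    exact le_of_tendsto (hL x).abs (Eventually.of_forall (fun i => hb i x))
  refine ⟨LinearMap.mkContinuous
    { toFun := L
      map_add' := fun x y => by
        refine tendsto_nhds_unique (hL (x + y)) ?_
        refine ((hL x).add (hL y)).congr (fun i => ?_)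
        rw [map_add]
      map_smul' := fun c x => by
        refine tendsto_nhds_unique (hL (c • x)) ?_
        refine ((hL x).const_mul c).congr (fun i => ?_)
        rw [map_smul, smul_eq_mul] } 1 hLb, LinearMap.mkContinuous_norm_le _ zero_le_one _, ?_⟩
  intro x
  exact hL x

variable {Ω : Type*} [m0 : MeasurableSpace Ω] {μ : Measure Ω} [IsProbabilityMeasure μ]
  {X : Type*} [NormedAddCommGroup X] [NormedSpace ℝ X] {t : ℕ → ℕ → X → Ω → ℝ}

/-- the data of one step -/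
structure Dat (Ω : Type*) [MeasurableSpace Ω] (X : Type*) where
  /-- the number of the sequence -/
  m : ℕ
  /-- the vector -/
  x : X
  /-- the weight -/
  w : Ω → ℝ
  /-- the weight is measurable -/
  hw : Measurable w

/-- the functions which belong to the data -/
def Dat.fn (d : Dat Ω X) (t : ℕ → ℕ → X → Ω → ℝ) : Option ℕ → Ω → ℝ
  | none => d.w
  | some n => t d.m n d.x

lemma Dat.measurable_fn (h : Fam μ t) (d : Dat Ω X) (j : Option ℕ) : Measurable (d.fn t j) := by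
  cases j with
  | none => exact d.hw
  | some n => exact h.meas _ _ _

section index

variable {K : Type} [LinearOrder K]

/-- finite intersections of level sets of the earlier functions -/
def cellF (t : ℕ → ℕ → X → Ω → ℝ) (ξ : K) (f : ∀ η, η < ξ → Dat Ω X)
    (s : Finset (Set.Iio ξ × Option ℕ × ℚ)) : Set Ω :=
  ⋂ i ∈ s, {ω | (i.2.2 : ℝ) < (f i.1.1 i.1.2).fn t i.2.1 ω}

lemma measurableSet_cellF (h : Fam μ t) (ξ : K) (f : ∀ η, η < ξ → Dat Ω X)
    (s : Finset (Set.Iio ξ × Option ℕ × ℚ)) : MeasurableSet (cellF t ξ f s) :=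
  Finset.measurableSet_biInter s (fun _ _ =>
    measurableSet_lt measurable_const (Dat.measurable_fn h _ _))

lemma isPiSystem_cellF (ξ : K) (f : ∀ η, η < ξ → Dat Ω X) :
    IsPiSystem (Set.range (cellF t ξ f)) := by
  classical
  rintro _ ⟨s, rfl⟩ _ ⟨s', rfl⟩ _
  refine ⟨s ∪ s', ?_⟩
  ext ω
  simp only [cellF, Set.mem_iInter, Set.mem_inter_iff, Finset.mem_union]
  constructor
  · intro h
    exact ⟨fun i hi => h i (Or.inl hi), fun i hi => h i (Or.inr hi)⟩
  · rintro ⟨h1, h2⟩ i (hi | hi)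
    · exact h1 i hi
    · exact h2 i hi

lemma univ_mem_cellF (ξ : K) (f : ∀ η, η < ξ → Dat Ω X) :
    Set.univ ∈ Set.range (cellF t ξ f) := ⟨∅, by simp [cellF]⟩

lemma mk_idx_lt (ξ : K) (hξ : #(Set.Iio ξ) < distributivityNumber) :
    #(Finset (Set.Iio ξ × Option ℕ × ℚ)) < distributivityNumber := by
  refine mk_finset_lt aleph0_lt_distributivityNumber ?_
  rw [Cardinal.mk_prod]
  simp only [Cardinal.lift_id]
  exact Cardinal.mul_lt_of_lt aleph0_lt_distributivityNumber.le hξ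
    (Cardinal.mk_le_aleph0.trans_lt aleph0_lt_distributivityNumber)

/-- the σ-algebra of the earlier functions -/
@[reducible] def RR (t : ℕ → ℕ → X → Ω → ℝ) (ξ : K) (f : ∀ η, η < ξ → Dat Ω X) : MeasurableSpace Ω :=
  MeasurableSpace.generateFrom (Set.range (cellF t ξ f))

lemma measurable_RR (ξ : K) (f : ∀ η, η < ξ → Dat Ω X) (η : K) (hη : η < ξ) (j : Option ℕ) :
    Measurable[RR t ξ f] ((f η hη).fn t j) := by
  have hb : borel ℝ = MeasurableSpace.generateFrom (⋃ a : ℚ, {Set.Ioi (a : ℝ)}) :=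
    Real.borel_eq_generateFrom_Ioi_rat
  rw [BorelSpace.measurable_eq (α := ℝ), hb]
  refine @measurable_generateFrom Ω ℝ (RR t ξ f) _ _ (fun s hs => ?_)
  simp only [Set.mem_iUnion, Set.mem_singleton_iff] at hs
  obtain ⟨q, rfl⟩ := hs
  refine MeasurableSpace.measurableSet_generateFrom ⟨{(⟨η, hη⟩, j, q)}, ?_⟩
  ext ω
  simp [cellF]

end index

lemma mk_Iio_cont (ξ : (𝔠 : Cardinal.{0}).ord.ToType) : #(Set.Iio ξ) < 𝔠 := by
  have h := Cardinal.mk_Iio_lt ξ (by simp)
  rwa [Cardinal.mk_toType, Cardinal.card_ord] at h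

/-- **The main theorem on bounded densities.** -/
theorem exists_good (h1 : distributivityNumber = 𝔠) (h2 : ℵ₁ < distributivityNumber)
    (hX : WStarSeqCompact X) (h : Fam μ t) : ∃ N : Set ℕ, N.Infinite ∧ Good μ t N := by
  classical
  by_contra hcon
  have hbad : ∀ N : Set ℕ, N.Infinite → ¬ Good μ t N := fun N hN hG => hcon ⟨N, hN, hG⟩
  -- the index set
  set K : Type := (𝔠 : Cardinal.{0}).ord.ToType with hK
  have hKc : #K = 𝔠 := by rw [hK, Cardinal.mk_toType, Cardinal.card_ord]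
  have hIio : ∀ ξ : K, #(Set.Iio ξ) < distributivityNumber := by
    intro ξ
    rw [h1]
    exact mk_Iio_cont ξ
  -- enumeration of the infinite sets
  obtain ⟨A, hA⟩ : ∃ A : K → {N : Set ℕ // N.Infinite}, Function.Surjective A := by
    have h3 : #{N : Set ℕ // N.Infinite} ≤ #K := by
      rw [hKc]
      refine (Cardinal.mk_subtype_le _).trans ?_
      rw [Cardinal.mk_set, Cardinal.mk_nat, Cardinal.two_power_aleph0]
    obtain ⟨f, hf⟩ := (Cardinal.le_def _ _).1 h3
    have : Nonempty {N : Set ℕ // N.Infinite} := ⟨⟨Set.univ, Set.infinite_univ⟩⟩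
    exact ⟨Function.invFun f, Function.invFun_surjective hf⟩
  -- the recursion
  obtain ⟨D, hD⟩ := exists_rec (K := K) (β := Dat Ω X)
    (fun ξ f d => (∀ ω, 0 ≤ d.w ω) ∧ (∀ ω, d.w ω ≤ 2) ∧
      (∀ g : Ω → ℝ, Measurable[RR t ξ f] g → Bd g → ∫ ω, g ω * (d.w ω - 1) ∂μ = 0) ∧
      ¬ Cv (atTop ⊓ 𝓟 (A ξ).1) (fun n => ∫ ω, d.w ω * t d.m n d.x ω ∂μ)) (fun ξ f => by
      obtain ⟨m, x, w, hw, h3, h4, h5, h6⟩ := step hX h hbad (mk_idx_lt ξ (hIio ξ)) (cellF t ξ f)
        (measurableSet_cellF h ξ f) (isPiSystem_cellF ξ f) (univ_mem_cellF ξ f) (A ξ).1 (A ξ).2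
      exact ⟨⟨m, x, w, hw⟩, h3, h4, h5, h6⟩)
  set w : K → Ω → ℝ := fun ξ => (D ξ).w with hw
  set R : K → MeasurableSpace Ω := fun ξ => RR t ξ (fun η _ => D η) with hR
  have hRm : ∀ ξ η, η < ξ → ∀ j, Measurable[R ξ] ((D η).fn t j) := fun ξ η hlt j =>
    measurable_RR ξ (fun η _ => D η) η hlt j
  have hM : Mart μ w R :=
    { le := fun ξ => by
        refine MeasurableSpace.generateFrom_le ?_
        rintro _ ⟨s, rfl⟩
        exact measurableSet_cellF h ξ _ s
      mono := fun ξ η hlt => by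
        refine MeasurableSpace.generateFrom_le ?_
        rintro _ ⟨s, rfl⟩
        refine @Finset.measurableSet_biInter Ω _ (R ξ) _ s (fun i _ => ?_)
        have h7 := hRm ξ i.1.1 (lt_trans i.1.2 hlt) i.2.1
        exact h7 measurableSet_Ioi
      meas := fun ξ η hlt => hRm ξ η hlt none
      meas0 := fun η => (D η).hw
      nonneg := fun ξ ω => (hD ξ).1 ω
      le_two := fun ξ ω => (hD ξ).2.1 ω
      orth := fun ξ g hg hgb => (hD ξ).2.2.1 g hg hgb }
  -- the colouring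
  set y : K → ℕ → Ω → ℝ := fun ξ n ω => w ξ ω * t (D ξ).m n (D ξ).x ω with hy
  set J : K → Set K := fun ξ => ⋃ n, {η | ¬ NoJump μ w R (y ξ n) η} with hJ
  have hJc : ∀ ξ, (J ξ).Countable := fun ξ => Set.countable_iUnion (fun n =>
    countable_jump hM (y ξ n) ((hM.meas0 ξ).mul (h.meas _ _ _)) ((bd_w hM ξ).mul (h.bd' _ _ _)))
  set C : Type := (ℵ₁ : Cardinal.{0}).out with hCdef
  have hCc : #C = ℵ₁ := Cardinal.mk_out _
  have hCu : ¬ (Set.univ : Set C).Countable := by
    intro hc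
    have h3 : #(Set.univ : Set C) ≤ ℵ₀ := Cardinal.le_aleph0_iff_set_countable.2 hc
    rw [Cardinal.mk_univ, hCc] at h3
    exact absurd h3 (not_le.2 Cardinal.aleph0_lt_aleph_one)
  obtain ⟨χ, hχ⟩ := exists_coloring hCu J hJc
  -- the weights
  set P : ∀ c : C, Finset {ξ : K // χ ξ = c} → Finset K := fun c F =>
    F.map (Function.Embedding.subtype _) with hP
  have hWt : ∀ F : Finset K, Wt μ (prodW w F) := fun F =>
    { meas := measurable_prodW0 hM F
      nonneg := prodW_nonneg hM F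
      bd := bd_prodW hM F
      int := (integral_prodW hM F).le }
  have hz : ∀ i : C × ℕ, ∀ n : ℕ, ∃ z : X →L[ℝ] ℝ, ‖z‖ ≤ 1 ∧
      ∀ x, Tendsto (fun F => wf h (hWt (P i.1 F)) i.2 n x)
        (Ultrafilter.of (atTop : Filter (Finset {ξ : K // χ ξ = i.1}))) (𝓝 (z x)) := fun i n =>
    exists_ultra_lim _ _ (fun F => norm_wf_le h _ _ _)
  choose z hz1 hz2 using hz
  have hval : ∀ ξ n, z (χ ξ, (D ξ).m) n (D ξ).x = ∫ ω, (D ξ).w ω * t (D ξ).m n (D ξ).x ω ∂μ := by
    intro ξ n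
    refine tendsto_nhds_unique (hz2 (χ ξ, (D ξ).m) n (D ξ).x) ?_
    have h3 : ∀ᶠ F in (atTop : Filter (Finset {η : K // χ η = χ ξ})),
        ∫ ω, (D ξ).w ω * t (D ξ).m n (D ξ).x ω ∂μ =
          wf h (hWt (P (χ ξ) F)) (D ξ).m n (D ξ).x := by
      filter_upwards [eventually_ge_atTop ({⟨ξ, rfl⟩} : Finset {η : K // χ η = χ ξ})] with F hF
      rw [wf_apply]
      refine (integral_prodW_mul_of_mem hM ξ (t (D ξ).m n (D ξ).x) (h.meas _ _ _) (h.bd' _ _ _)
        (fun a ha => hRm a ξ ha (some n)) (P (χ ξ) F) ?_ (fun η hη hlt => ?_)).symm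
      · simp only [hP, Finset.mem_map]
        exact ⟨⟨ξ, rfl⟩, hF (Finset.mem_singleton_self _), rfl⟩
      · simp only [hP, Finset.mem_map] at hη
        obtain ⟨⟨η', hη'⟩, -, rfl⟩ := hη
        by_contra hno
        refine hχ ξ η' hlt ?_ hη'
        simp only [hJ, Set.mem_iUnion]
        exact ⟨n, hno⟩
    refine Tendsto.congr' (Filter.Eventually.filter_mono (Ultrafilter.of_le atTop) h3) ?_
    exact tendsto_const_nhds
  -- the contradiction
  have hCN : #(C × ℕ) < distributivityNumber := by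
    rw [Cardinal.mk_prod]
    simp only [Cardinal.lift_id]
    exact Cardinal.mul_lt_of_lt aleph0_lt_distributivityNumber.le (hCc.trans_lt h2)
      (Cardinal.mk_le_aleph0.trans_lt aleph0_lt_distributivityNumber)
  obtain ⟨N, hN, hN2⟩ := denseOpen_lt hCN
    (fun i : C × ℕ => {N | ∀ x, Cv (atTop ⊓ 𝓟 N) (fun n => z i n x)})
    (fun i => denseOpen_cv hX (z i) (hz1 i))
  obtain ⟨ξ, hξ⟩ := hA ⟨N, hN⟩
  apply (hD ξ).2.2.2
  rw [hξ]
  have h3 := hN2 (χ ξ, (D ξ).m) (D ξ).x
  simp only [hval ξ] at h3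
  exact h3

end Pool.Agent.H10Wsc
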