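import Pool.Agent.H10Wsc.Rand
import Pool.Agent.LpSeq.Core

/-!
The Banach space: closed span of the coordinate functions on the set of all admissible functions.
Every functional vanishes on all but countably many coordinate functions.
-/

set_option autoImplicit false
open MeasureTheory Filter Topology Pool.Agent.LpSeq
open scoped ENNReal BoundedContinuousFunction

namespace Pool.Agent.H10Wsc

variable {I : Type} [LinearOrder I]

/-- the set of admissible functions -/
def KK (e : I → ℕ → I) (N : I → I → ℕ) : Set (I → ℝ) :=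
  {k | ∀ b, |k b| ≤ 1 ∧ (k b ≠ 0 → Adm e N k b)}

variable (e : I → ℕ → I) (N : I → I → ℕ)

/-- the coordinate functions -/
noncomputable def hh (b : I) : KK e N →ᵇ ℝ :=
  BoundedContinuousFunction.ofNormedAddCommGroup (fun k => k.1 b)
    ((continuous_apply b).comp continuous_subtype_val) 1 (fun k => (k.2 b).1)

@[simp] lemma hh_apply (b : I) (k : KK e N) : hh e N b k = k.1 b := rfl

/-- the Banach space, as a subspace -/
noncomputable def SS : Submodule ℝ (KK e N →ᵇ ℝ) := (Submodule.span ℝ (Set.range (hh e N))).topologicalClosure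

/-- the Banach space -/
def XX : Type := SS e N

noncomputable instance : NormedAddCommGroup (XX e N) := Submodule.normedAddCommGroup (SS e N)

noncomputable instance : NormedSpace ℝ (XX e N) := Submodule.normedSpace (SS e N)

instance : CompleteSpace (XX e N) :=
  (Submodule.isClosed_topologicalClosure _ : IsClosed ((SS e N : Submodule ℝ (KK e N →ᵇ ℝ)) :
    Set (KK e N →ᵇ ℝ))).completeSpace_coe

/-- the inclusion -/
noncomputable def val : XX e N →ₗ[ℝ] (KK e N →ᵇ ℝ) := (SS e N).subtype

/-- evaluation at a point -/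
noncomputable def evk (y : XX e N) (k : KK e N) : ℝ := val e N y k

lemma norm_val (y : XX e N) : ‖val e N y‖ = ‖y‖ := rfl

lemma evk_add (y y' : XX e N) (k : KK e N) : evk e N (y + y') k = evk e N y k + evk e N y' k := by
  simp [evk]

lemma evk_smul (c : ℝ) (y : XX e N) (k : KK e N) : evk e N (c • y) k = c * evk e N y k := by
  simp [evk]

lemma evk_zero (k : KK e N) : evk e N 0 k = 0 := by
  simp [evk]

lemma abs_evk_le (y : XX e N) (k : KK e N) : |evk e N y k| ≤ ‖y‖ := by
  rw [← norm_val, ← Real.norm_eq_abs]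
  exact (val e N y).norm_coe_le_norm k

/-- the coordinate functions as elements of the space -/
noncomputable def hx (b : I) : XX e N :=
  ⟨hh e N b, Submodule.le_topologicalClosure _ (Submodule.subset_span ⟨b, rfl⟩)⟩

lemma evk_hx (b : I) (k : KK e N) : evk e N (hx e N b) k = k.1 b := rfl

lemma evk_sum {α : Type} (s : Finset α) (f : α → XX e N) (k : KK e N) :
    evk e N (∑ i ∈ s, f i) k = ∑ i ∈ s, evk e N (f i) k := by
  classical
  induction s using Finset.induction_on with
  | empty => simp [evk_zero]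
  | insert a s ha ih => rw [Finset.sum_insert ha, Finset.sum_insert ha, evk_add, ih]

/-- every uncountable family has members beyond any point: an injective sequence -/
lemma exists_seq (hI : CountableSeg I) (A : Set I) (hA : ¬ A.Countable) (c : I) :
    ∃ s : ℕ → I, Function.Injective s ∧ (∀ i, s i ∈ A) ∧ ∀ i, c < s i := by
  have h1 : (A ∩ Set.Ioi c).Infinite := by
    intro hfin
    apply hA
    have h2 : A ⊆ (A ∩ Set.Ioi c) ∪ (Set.Iio c ∪ {c}) := by
      intro x hx
      rcases lt_trichotomy x c with h | h | h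
      · exact Or.inr (Or.inl h)
      · exact Or.inr (Or.inr h)
      · exact Or.inl ⟨hx, h⟩
    exact ((hfin.countable).union ((hI c).union (Set.countable_singleton c))).mono h2
  refine ⟨fun i => (Set.Infinite.natEmbedding _ h1 i : I), ?_, ?_, ?_⟩
  · exact Subtype.val_injective.comp (Set.Infinite.natEmbedding _ h1).injective
  · exact fun i => (Set.Infinite.natEmbedding _ h1 i).2.1
  · exact fun i => (Set.Infinite.natEmbedding _ h1 i).2.2

lemma step_exists (hI : CountableSeg I)
    (hb : ∀ s : ℕ → I, ∃ c, ∀ i, s i < c) (he : Function.Surjective e)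
    (z : XX e N →L[ℝ] ℝ) (A : Set I) (hA : ¬ A.Countable) (ε : ℝ)
    (hz : ∀ b ∈ A, ε ≤ z (hx e N b)) (δ : ℝ) (hδ : 0 < δ) (m : ℕ) :
    ∀ c : I, ∃ (y : XX e N) (F : Finset I), (∀ b ∈ F, c < b) ∧
      (∀ k : KK e N, (∀ b ∈ F, k.1 b = 0) → evk e N y k = 0) ∧
      m * ε ≤ z y ∧ ∀ k : KK e N, |evk e N y k| ≤ 1 + m * δ := by
  classical
  induction m with
  | zero =>
    intro c
    refine ⟨0, ∅, by simp, ?_, by simp, ?_⟩
    · intro k _
      exact evk_zero e N k
    · intro k
      simp [evk_zero]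
  | succ m ih =>
    intro c
    obtain ⟨s, hs, hsA, hsc⟩ := exists_seq hI A hA c
    obtain ⟨ξ, hξ⟩ := he s
    obtain ⟨c1, hc1⟩ := hb (fun n => Nat.rec (max ξ c) (fun i _ => s i) n)
    have hc1ξ : ξ < c1 := lt_of_le_of_lt (le_max_left _ _) (hc1 0)
    have hc1s : ∀ i, s i < c1 := fun i => hc1 (i + 1)
    have hc1c : c < c1 := lt_of_le_of_lt (le_max_right _ _) (hc1 0)
    obtain ⟨y, F, hF1, hF2, hF3, hF4⟩ := ih c1
    -- the size of the block
    obtain ⟨n0, hn0⟩ : ∃ n0 : ℕ, (2⁻¹ : ℝ) ^ n0 < δ := exists_pow_lt_of_lt_one hδ (by norm_num)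
    set n : ℕ := max n0 (F.sup (fun b => N b ξ + 3)) with hn
    have hnF : ∀ b ∈ F, N b ξ + 3 ≤ n := fun b hb =>
      (Finset.le_sup (f := fun b => N b ξ + 3) hb).trans (le_max_right _ _)
    have hnδ : (2⁻¹ : ℝ) ^ n ≤ δ := by
      refine le_trans ?_ hn0.le
      exact pow_le_pow_of_le_one (by norm_num) (by norm_num) (le_max_left _ _)
    have h8 : (0 : ℝ) < 8 ^ n := by positivity
    set a : XX e N := ((8 : ℝ) ^ n)⁻¹ • ∑ i ∈ Finset.range (8 ^ n), hx e N (s i) with ha
    have ha_apply : ∀ k : KK e N, evk e N a k =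
        ((8 : ℝ) ^ n)⁻¹ * ∑ i ∈ Finset.range (8 ^ n), k.1 (s i) := by
      intro k
      rw [ha, evk_smul, evk_sum]
      rfl
    refine ⟨a + y, F ∪ (Finset.range (8 ^ n)).image s, ?_, ?_, ?_, ?_⟩
    · intro b hb
      rw [Finset.mem_union, Finset.mem_image] at hb
      rcases hb with hb | ⟨i, -, rfl⟩
      · exact hc1c.trans (hF1 b hb)
      · exact hsc i
    · intro k hk
      have h1 : evk e N y k = 0 :=
        hF2 k (fun b hb => hk b (Finset.mem_union_left _ hb))
      have h2 : evk e N a k = 0 := by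
        rw [ha_apply, Finset.sum_eq_zero, mul_zero]
        intro i hi
        exact hk _ (Finset.mem_union_right _ (Finset.mem_image_of_mem s hi))
      rw [evk_add, h1, h2, add_zero]
    · rw [map_add]
      have h1 : ε ≤ z a := by
        rw [ha, map_smul, map_sum, smul_eq_mul]
        have h2 : ((8 : ℝ) ^ n) * ε ≤ ∑ i ∈ Finset.range (8 ^ n), z (hx e N (s i)) := by
          calc ((8 : ℝ) ^ n) * ε = ∑ _i ∈ Finset.range (8 ^ n), ε := by
                rw [Finset.sum_const, Finset.card_range, nsmul_eq_mul]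
                push_cast
                rfl
            _ ≤ _ := Finset.sum_le_sum (fun i _ => hz _ (hsA i))
        rw [le_inv_mul_iff₀ h8]
        exact h2
      push_cast
      linarith
    · intro k
      rw [evk_add]
      by_cases hk : ∀ b ∈ F, k.1 b = 0
      · rw [hF2 k hk, add_zero, ha_apply, abs_mul, abs_of_pos (inv_pos.2 h8)]
        have h2 : |∑ i ∈ Finset.range (8 ^ n), k.1 (s i)| ≤ 8 ^ n := by
          calc |∑ i ∈ Finset.range (8 ^ n), k.1 (s i)|
              ≤ ∑ i ∈ Finset.range (8 ^ n), |k.1 (s i)| := Finset.abs_sum_le_sum_abs _ _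
            _ ≤ ∑ _i ∈ Finset.range (8 ^ n), (1 : ℝ) := Finset.sum_le_sum (fun i _ => (k.2 _).1)
            _ = 8 ^ n := by simp
        have h3 : ((8 : ℝ) ^ n)⁻¹ * |∑ i ∈ Finset.range (8 ^ n), k.1 (s i)| ≤ 1 := by
          rw [inv_mul_le_iff₀ h8, mul_one]
          exact h2
        have : 0 ≤ ((m + 1 : ℕ) : ℝ) * δ := by positivity
        linarith
      · push Not at hk
        obtain ⟨b, hbF, hkb⟩ := hk
        have hadm := (k.2 b).2 hkb
        have h1 := hadm ξ (hc1ξ.trans (hF1 b hbF)) (by rw [hξ]; exact hs)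
          (by rw [hξ]; exact fun i => (hc1s i).trans (hF1 b hbF)) n (hnF b hbF)
        rw [hξ] at h1
        have h2 : |evk e N a k| ≤ δ := by
          rw [ha_apply, abs_mul, abs_of_pos (inv_pos.2 h8)]
          refine le_trans ?_ hnδ
          rw [inv_mul_le_iff₀ h8]
          refine h1.trans (le_of_eq ?_)
          rw [← mul_pow]
          norm_num
        have h3 := hF4 k
        have h4 := abs_add_le (evk e N a k) (evk e N y k)
        push_cast
        linarith

lemma norm_XX_le (y : XX e N) (C : ℝ) (hC : 0 ≤ C)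
    (h : ∀ k : KK e N, |evk e N y k| ≤ C) : ‖y‖ ≤ C := by
  rw [← norm_val, BoundedContinuousFunction.norm_le hC]
  exact fun k => h k

lemma countable_ge (hI : CountableSeg I)
    (hb : ∀ s : ℕ → I, ∃ c, ∀ i, s i < c) (he : Function.Surjective e)
    (z : XX e N →L[ℝ] ℝ) (hz : ‖z‖ ≤ 1) (ε : ℝ) (hε : 0 < ε) :
    {b | ε ≤ z (hx e N b)}.Countable := by
  by_contra hA
  rcases isEmpty_or_nonempty I with hemp | ⟨⟨c⟩⟩
  · exact hA (Set.to_countable _)
  obtain ⟨m, hm⟩ := exists_nat_gt (2 / ε)
  obtain ⟨y, -, -, -, h1, h2⟩ := step_exists e N hI hb he z _ hA ε (fun b hb => hb) (ε / 2)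
    (by positivity) m c
  have h3 : ‖y‖ ≤ 1 + m * (ε / 2) := norm_XX_le e N y _ (by positivity) h2
  have h4 : z y ≤ ‖y‖ := by
    have := z.le_opNorm y
    calc z y ≤ ‖z y‖ := Real.le_norm_self _
      _ ≤ ‖z‖ * ‖y‖ := this
      _ ≤ 1 * ‖y‖ := by gcongr
      _ = ‖y‖ := one_mul _
  rw [div_lt_iff₀ hε] at hm
  nlinarith

lemma countable_support (hI : CountableSeg I)
    (hb : ∀ s : ℕ → I, ∃ c, ∀ i, s i < c) (he : Function.Surjective e)
    (z : XX e N →L[ℝ] ℝ) (hz : ‖z‖ ≤ 1) : {b | z (hx e N b) ≠ 0}.Countable := by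
  have h1 : {b | z (hx e N b) ≠ 0} ⊆ ⋃ j : ℕ, ({b | 1 / ((j : ℝ) + 1) ≤ z (hx e N b)} ∪
      {b | 1 / ((j : ℝ) + 1) ≤ (-z) (hx e N b)}) := by
    intro b hb
    have h2 : 0 < |z (hx e N b)| := abs_pos.2 hb
    obtain ⟨j, hj⟩ := exists_nat_one_div_lt h2
    rw [Set.mem_iUnion]
    refine ⟨j, ?_⟩
    rcases abs_cases (z (hx e N b)) with ⟨h3, _⟩ | ⟨h3, _⟩
    · left
      rw [h3] at hj
      exact hj.le
    · right
      rw [h3] at hj
      exact hj.le
  refine Set.Countable.mono h1 (Set.countable_iUnion (fun j => Set.Countable.union ?_ ?_))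
  · exact countable_ge e N hI hb he z hz _ (by positivity)
  · exact countable_ge e N hI hb he (-z) (by rwa [norm_neg]) _ (by positivity)

/-- The dual ball of the space is weak* sequentially compact. -/
theorem wstar_XX (hI : CountableSeg I)
    (hb : ∀ s : ℕ → I, ∃ c, ∀ i, s i < c) (he : Function.Surjective e) :
    WStarSeqCompact (XX e N) := by
  classical
  intro φ hφ
  set C : Set I := ⋃ n, {b | φ n (hx e N b) ≠ 0} with hC
  have hCc : C.Countable := Set.countable_iUnion (fun n => countable_support e N hI hb he _ (hφ n))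
  have hnorm : ∀ b, ‖hx e N b‖ ≤ 1 := fun b =>
    norm_XX_le e N _ _ zero_le_one (fun k => (k.2 b).1)
  have := hCc.to_subtype
  have hcomp : IsCompact (Set.pi Set.univ (fun _ : C => Set.Icc (-1 : ℝ) 1)) :=
    isCompact_univ_pi (fun _ => isCompact_Icc)
  obtain ⟨l, -, k, hk, hl⟩ := hcomp.tendsto_subseq (x := fun n (b : C) => φ n (hx e N b)) (by
    intro n
    rw [Set.mem_univ_pi]
    intro b
    rw [Set.mem_Icc, ← abs_le, ← Real.norm_eq_abs]
    refine ((φ n).le_opNorm _).trans ?_
    exact mul_le_one₀ (hφ n) (norm_nonneg _) (hnorm _))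
  have hcv : ∀ b, Cv (atTop ⊓ 𝓟 (Set.range k)) (fun n => φ n (hx e N b)) := by
    intro b
    by_cases hbC : b ∈ C
    · refine ⟨l ⟨b, hbC⟩, ?_⟩
      rw [← map_strictMono hk, tendsto_map'_iff]
      exact (tendsto_pi_nhds.1 hl) ⟨b, hbC⟩
    · refine ⟨0, ?_⟩
      have h0 : ∀ n, φ n (hx e N b) = 0 := by
        intro n
        by_contra h
        exact hbC (Set.mem_iUnion.2 ⟨n, h⟩)
      simp only [h0]
      exact tendsto_const_nhds
  have hinf : (Set.range k).Infinite := Set.infinite_range_of_injective hk.injective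
  have hne := neBot_inf hinf
  refine finish φ hφ (Set.range k) hinf ?_
  have hcl := cv_closed φ hφ (atTop ⊓ 𝓟 (Set.range k))
  -- the span of the coordinate functions is dense
  have hspan : ∀ y ∈ Submodule.span ℝ (Set.range (hx e N)),
      Cv (atTop ⊓ 𝓟 (Set.range k)) (fun n => φ n y) := by
    intro y hy
    induction hy using Submodule.span_induction with
    | mem x hx =>
      obtain ⟨b, rfl⟩ := hx
      exact hcv b
    | zero => exact ⟨0, by simp⟩
    | add x y _ _ hx hy =>
      have := hx.add hy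
      simpa only [map_add] using this
    | smul a x _ hx =>
      have := hx.const_mul a
      simpa only [map_smul, smul_eq_mul] using this
  have hdense : Dense ((Submodule.span ℝ (Set.range (hx e N)) : Submodule ℝ (XX e N)) :
      Set (XX e N)) := by
    intro x
    rw [Metric.mem_closure_iff]
    intro ε hε
    have hx1 : val e N x ∈ closure ((Submodule.span ℝ (Set.range (hh e N)) :
        Submodule ℝ (KK e N →ᵇ ℝ)) : Set (KK e N →ᵇ ℝ)) := by
      rw [← Submodule.topologicalClosure_coe]
      exact x.2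
    obtain ⟨y, hy, hxy⟩ := Metric.mem_closure_iff.1 hx1 ε hε
    have hmap : Submodule.map (val e N) (Submodule.span ℝ (Set.range (hx e N))) =
        Submodule.span ℝ (Set.range (hh e N)) := by
      rw [Submodule.map_span, ← Set.range_comp]
      rfl
    rw [SetLike.mem_coe, ← hmap, Submodule.mem_map] at hy
    obtain ⟨w, hw, rfl⟩ := hy
    refine ⟨w, hw, ?_⟩
    rw [dist_eq_norm, ← norm_val, map_sub, ← dist_eq_norm]
    exact hxy
  intro x
  have : x ∈ closure ((Submodule.span ℝ (Set.range (hx e N)) : Submodule ℝ (XX e N)) :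
      Set (XX e N)) := hdense x
  exact hcl.closure_subset_iff.2 hspan this

end Pool.Agent.H10Wsc
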