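import Pool.Agent.H10Wsc.Prod

/-!
The step of the recursion: a function `w` with `E[w | R] = 1` for which the integrals do not
converge along a given set, if there is no set of convergence.
-/

set_option autoImplicit false
set_option linter.unusedSectionVars false
open MeasureTheory Filter Topology Cardinal Pool.Agent.LpSeq
open scoped ENNReal symmDiff

namespace Pool.Agent.H10Wsc

variable {Ω : Type*} [m0 : MeasurableSpace Ω] {μ : Measure Ω} [IsProbabilityMeasure μ]
  {X : Type*} [NormedAddCommGroup X] [NormedSpace ℝ X]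

variable (μ) in
/-- a family of bounded densities -/
structure Fam (t : ℕ → ℕ → X → Ω → ℝ) : Prop where
  meas : ∀ m n x, Measurable (t m n x)
  bd : ∀ m n x ω, |t m n x ω| ≤ ‖x‖
  add : ∀ m n x y, t m n (x + y) =ᵐ[μ] fun ω => t m n x ω + t m n y ω
  smul : ∀ m n (c : ℝ) x, t m n (c • x) =ᵐ[μ] fun ω => c * t m n x ω

variable (μ) in
/-- admissible weights -/
structure Wt (w : Ω → ℝ) : Prop where
  meas : Measurable w
  nonneg : ∀ ω, 0 ≤ w ω
  bd : Bd w
  int : ∫ ω, w ω ∂μ ≤ 1

variable {t : ℕ → ℕ → X → Ω → ℝ}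

lemma Fam.bd' (h : Fam μ t) (m n : ℕ) (x : X) : Bd (t m n x) := ⟨‖x‖, h.bd m n x⟩

lemma Fam.integrable (h : Fam μ t) (m n : ℕ) (x : X) : Integrable (t m n x) μ :=
  (h.bd' m n x).integrable (h.meas m n x)

lemma Fam.integrable_mul (h : Fam μ t) {w : Ω → ℝ} (hw : Measurable w) (hb : Bd w) (m n : ℕ)
    (x : X) : Integrable (fun ω => w ω * t m n x ω) μ :=
  (hb.mul (h.bd' m n x)).integrable (hw.mul (h.meas m n x))

/-- the functional `x ↦ ∫ w t_n(x)` -/
noncomputable def wf (h : Fam μ t) {w : Ω → ℝ} (hw : Wt μ w) (m n : ℕ) : X →L[ℝ] ℝ :=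
  LinearMap.mkContinuous
    { toFun := fun x => ∫ ω, w ω * t m n x ω ∂μ
      map_add' := fun x y => by
        rw [← integral_add (h.integrable_mul hw.meas hw.bd m n x)
          (h.integrable_mul hw.meas hw.bd m n y)]
        refine integral_congr_ae ?_
        filter_upwards [h.add m n x y] with ω h1
        rw [h1]
        ring
      map_smul' := fun c x => by
        rw [RingHom.id_apply, smul_eq_mul, ← integral_const_mul]
        refine integral_congr_ae ?_
        filter_upwards [h.smul m n c x] with ω h1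
        rw [h1]
        ring } 1 (fun x => by
      simp only [LinearMap.coe_mk, AddHom.coe_mk]
      rw [Real.norm_eq_abs, one_mul]
      calc |∫ ω, w ω * t m n x ω ∂μ| ≤ ∫ ω, |w ω * t m n x ω| ∂μ := abs_integral_le_integral_abs
        _ ≤ ∫ ω, w ω * ‖x‖ ∂μ := by
            refine integral_mono (h.integrable_mul hw.meas hw.bd m n x).abs
              ((hw.bd.integrable hw.meas).mul_const _) (fun ω => ?_)
            simp only
            rw [abs_mul, abs_of_nonneg (hw.nonneg ω)]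
            exact mul_le_mul_of_nonneg_left (h.bd m n x ω) (hw.nonneg ω)
        _ = (∫ ω, w ω ∂μ) * ‖x‖ := integral_mul_const _ _
        _ ≤ 1 * ‖x‖ := by
            gcongr
            exact hw.int
        _ = ‖x‖ := one_mul _)

lemma wf_apply (h : Fam μ t) {w : Ω → ℝ} (hw : Wt μ w) (m n : ℕ) (x : X) :
    wf h hw m n x = ∫ ω, w ω * t m n x ω ∂μ := rfl

lemma norm_wf_le (h : Fam μ t) {w : Ω → ℝ} (hw : Wt μ w) (m n : ℕ) : ‖wf h hw m n‖ ≤ 1 :=
  LinearMap.mkContinuous_norm_le _ zero_le_one _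

lemma wt_indicator {A : Set Ω} (hA : MeasurableSet A) :
    Wt μ (A.indicator (fun _ => (1 : ℝ))) where
  meas := measurable_const.indicator hA
  nonneg := fun ω => Set.indicator_nonneg (fun _ _ => zero_le_one) ω
  bd := ⟨1, fun ω => by
    by_cases h : ω ∈ A
    · simp [h]
    · simp [h]⟩
  int := by
    rw [integral_indicator hA]
    simp

lemma setIntegral_eq (f : Ω → ℝ) {A : Set Ω} (hA : MeasurableSet A) :
    ∫ ω in A, f ω ∂μ = ∫ ω, A.indicator (fun _ => (1 : ℝ)) ω * f ω ∂μ := by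
  rw [← integral_indicator hA]
  congr 1
  ext ω
  by_cases h : ω ∈ A
  · simp [h]
  · simp [h]

/-- fewer than `𝔥` sequences of functionals converge along a subset of a given set -/
lemma exists_sub (hX : WStarSeqCompact X) {ι : Type} (hι : #ι < distributivityNumber)
    (u : ι → ℕ → (X →L[ℝ] ℝ)) (hu : ∀ i n, ‖u i n‖ ≤ 1) (N : Set ℕ) (hN : N.Infinite) :
    ∃ N' ⊆ N, N'.Infinite ∧ ∀ i x, Cv (atTop ⊓ 𝓟 N') (fun n => u i n x) := by
  classical
  have hinf := hN.to_subtype
  set e := Nat.Subtype.orderIsoOfNat N with he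
  have hmono : StrictMono (fun n => (e n : ℕ)) := fun a b hab => e.strictMono hab
  obtain ⟨M, hM, hM2⟩ := denseOpen_lt hι
    (fun i => {M | ∀ x, Cv (atTop ⊓ 𝓟 M) (fun n => u i (e n) x)})
    (fun i => denseOpen_cv hX (fun n => u i (e n)) (fun n => hu i _))
  have hinf2 := hM.to_subtype
  set k := Nat.Subtype.orderIsoOfNat M with hk
  have hkmono : StrictMono (fun n => (k n : ℕ)) := fun a b hab => k.strictMono hab
  have hcomp : StrictMono (fun n => (e (k n) : ℕ)) := hmono.comp hkmono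
  refine ⟨Set.range (fun n => (e (k n) : ℕ)), ?_, Set.infinite_range_of_injective hcomp.injective,
    ?_⟩
  · rintro _ ⟨n, rfl⟩
    exact (e (k n)).2
  · intro i x
    obtain ⟨l, hl⟩ := hM2 i x
    refine ⟨l, ?_⟩
    rw [← map_strictMono hcomp, tendsto_map'_iff]
    have h1 : M = Set.range (fun n => (k n : ℕ)) := by
      ext a
      constructor
      · intro ha
        obtain ⟨n, hn⟩ := k.surjective ⟨a, ha⟩
        exact ⟨n, by simp [hn]⟩
      · rintro ⟨n, rfl⟩
        exact (k n).2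
    have h2 : Tendsto (fun n => u i (e n) x) (map (fun n => (k n : ℕ)) atTop) (𝓝 l) := by
      rw [map_strictMono hkmono, ← h1]
      exact hl
    exact h2

section gen

variable (f : ℕ → Ω → ℝ) (hfm : ∀ n, Measurable (f n)) (c : ℝ) (hfc : ∀ n ω, |f n ω| ≤ c)
include hfm hfc

lemma cv_gen (F : Filter ℕ) [NeBot F] (C : Set (Set Ω)) (hC : IsPiSystem C)
    (hCm : ∀ A ∈ C, MeasurableSet A) (hu : Set.univ ∈ C)
    (h : ∀ A ∈ C, Cv F (fun n => ∫ ω in A, f n ω ∂μ)) :
    ∀ B, MeasurableSet[MeasurableSpace.generateFrom C] B →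
      Cv F (fun n => ∫ ω in B, f n ω ∂μ) := by
  have hle : MeasurableSpace.generateFrom C ≤ ‹MeasurableSpace Ω› :=
    MeasurableSpace.generateFrom_le hCm
  have hfi : ∀ n, Integrable (f n) μ := fun n => Bd.integrable ⟨c, hfc n⟩ (hfm n)
  refine MeasurableSpace.induction_on_inter (m := MeasurableSpace.generateFrom C)
    (C := fun B _ => Cv F (fun n => ∫ ω in B, f n ω ∂μ)) rfl hC ?_ h ?_ ?_
  · refine ⟨0, ?_⟩
    simp only [Measure.restrict_empty, integral_zero_measure]
    exact tendsto_const_nhds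
  · intro A hA hcv
    have := (h _ hu).sub hcv
    refine (Eq.mp ?_ this)
    congr 1
    ext n
    rw [setIntegral_univ, ← integral_add_compl (hle _ hA) (hfi n)]
    ring
  · intro g hd hg hcv
    have hgm : ∀ i, MeasurableSet (g i) := fun i => hle _ (hg i)
    have hfin : ∀ m : ℕ, Cv F (fun n => ∫ ω in (⋃ i ∈ Finset.range m, g i), f n ω ∂μ) := by
      intro m
      have h1 : ∀ n, ∫ ω in (⋃ i ∈ Finset.range m, g i), f n ω ∂μ =
          ∑ i ∈ Finset.range m, ∫ ω in g i, f n ω ∂μ := by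
        intro n
        refine integral_biUnion_finset _ (fun i _ => hgm i) (fun i _ j _ hij => hd hij)
          (fun i _ => (hfi n).integrableOn)
      simp only [h1]
      exact Cv.sum _ (fun i _ => hcv i)
    have h4 : Tendsto (fun m => μ.real (⋃ i ∈ Finset.range m, g i)) atTop
        (𝓝 (μ.real (⋃ i, g i))) := by
      have hs : HasSum (fun i => μ.real (g i)) (μ.real (⋃ i, g i)) := by
        have h1 := μ.toSignedMeasure.m_iUnion hgm hd
        simpa [Measure.toSignedMeasure_apply_measurable, hgm, MeasurableSet.iUnion hgm] using h1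
      have h5 := hs.tendsto_sum_nat
      refine h5.congr (fun m => ?_)
      rw [measureReal_biUnion_finset]
      · intro i _ j _ hij
        exact hd hij
      · intro i _
        exact hgm i
    refine Cv.of_approx (fun ε hε => ?_)
    obtain ⟨m, hm⟩ := (Metric.tendsto_atTop.1 h4) (ε / (|c| + 1)) (by positivity)
    have h7 := hm m le_rfl
    have hsub : (⋃ i ∈ Finset.range m, g i) ⊆ ⋃ i, g i := Set.iUnion₂_subset_iUnion _ _
    have hFm : MeasurableSet (⋃ i ∈ Finset.range m, g i) :=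
      Finset.measurableSet_biUnion _ (fun i _ => hgm i)
    refine ⟨_, hfin m, fun n => ?_⟩
    have h11 : ∫ ω in ⋃ i, g i, f n ω ∂μ - ∫ ω in (⋃ i ∈ Finset.range m, g i), f n ω ∂μ =
        ∫ ω in (⋃ i, g i) \ ⋃ i ∈ Finset.range m, g i, f n ω ∂μ :=
      (setIntegral_sdiff hFm (hfi n).integrableOn hsub).symm
    rw [h11]
    have h8 : |∫ ω in (⋃ i, g i) \ ⋃ i ∈ Finset.range m, g i, f n ω ∂μ| ≤
        c * μ.real ((⋃ i, g i) \ ⋃ i ∈ Finset.range m, g i) := by
      rw [← Real.norm_eq_abs]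
      refine norm_setIntegral_le_of_norm_le_const (measure_lt_top _ _) (fun ω _ => hfc n ω)
    refine h8.trans ?_
    rw [measureReal_sdiff hsub hFm]
    rw [Real.dist_eq, abs_lt] at h7
    have h9 : μ.real (⋃ i, g i) - μ.real (⋃ i ∈ Finset.range m, g i) ≤ ε / (|c| + 1) := by
      linarith [h7.1]
    have h10 : 0 ≤ μ.real (⋃ i, g i) - μ.real (⋃ i ∈ Finset.range m, g i) := by
      have := measureReal_mono (μ := μ) hsub
      linarith
    calc c * (μ.real (⋃ i, g i) - μ.real (⋃ i ∈ Finset.range m, g i))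
        ≤ (|c| + 1) * (ε / (|c| + 1)) := by
          refine mul_le_mul ?_ h9 h10 (by positivity)
          linarith [le_abs_self c]
      _ = ε := by field_simp

lemma cv_int (F : Filter ℕ) [NeBot F] (C : Set (Set Ω)) (hCm : ∀ A ∈ C, MeasurableSet A)
    (h : ∀ B, MeasurableSet[MeasurableSpace.generateFrom C] B →
      Cv F (fun n => ∫ ω in B, f n ω ∂μ))
    (g : Ω → ℝ) (hg : Measurable[MeasurableSpace.generateFrom C] g)
    (hg0 : ∀ ω, 0 ≤ g ω) (hg1 : ∀ ω, g ω ≤ 1) :
    Cv F (fun n => ∫ ω, g ω * f n ω ∂μ) := by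
  classical
  have hle : MeasurableSpace.generateFrom C ≤ ‹MeasurableSpace Ω› :=
    MeasurableSpace.generateFrom_le hCm
  refine Cv.of_approx (fun ε hε => ?_)
  obtain ⟨N, hN0, hN⟩ : ∃ N : ℕ, 0 < N ∧ (N : ℝ)⁻¹ * |c| < ε := by
    obtain ⟨N, hN⟩ := exists_nat_gt (|c| / ε)
    refine ⟨N + 1, Nat.succ_pos N, ?_⟩
    rw [inv_mul_lt_iff₀ (by positivity)]
    rw [div_lt_iff₀ hε] at hN
    push_cast
    nlinarith
  set B : ℕ → Set Ω := fun j => {ω | ((j : ℝ) + 1) ≤ N * g ω} with hBdef
  have hBm : ∀ j, MeasurableSet[MeasurableSpace.generateFrom C] (B j) := by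
    intro j
    have h0 : MeasurableSet {t : ℝ | ((j : ℝ) + 1) ≤ N * t} :=
      measurableSet_le measurable_const (measurable_const.mul measurable_id)
    exact hg h0
  refine ⟨fun n => (N : ℝ)⁻¹ * ∑ j ∈ Finset.range N, ∫ ω in B j, f n ω ∂μ,
    (Cv.sum _ (fun j _ => h (B j) (hBm j))).const_mul _, fun n => ?_⟩
  have hfi : Integrable (f n) μ := Bd.integrable ⟨c, hfc n⟩ (hfm n)
  have h1 : ∀ j, ∫ ω in B j, f n ω ∂μ = ∫ ω, (if ((j : ℝ) + 1) ≤ N * g ω then (1 : ℝ) else 0) *
      f n ω ∂μ := by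
    intro j
    rw [← integral_indicator (hle _ (hBm j))]
    congr 1
    ext ω
    by_cases hω : ((j : ℝ) + 1) ≤ N * g ω
    · simp [Set.indicator, hBdef, hω]
    · simp [Set.indicator, hBdef, hω]
  have hgm : Measurable g := hg.mono hle le_rfl
  have hint : ∀ j : ℕ, Integrable (fun ω => (if ((j : ℝ) + 1) ≤ N * g ω then (1 : ℝ) else 0) *
      f n ω) μ := by
    intro j
    refine hfi.bdd_mul (c := 1) ?_ ?_
    · refine Measurable.aestronglyMeasurable ?_
      exact Measurable.ite (hle _ (hBm j)) measurable_const measurable_const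
    · refine Eventually.of_forall (fun ω => ?_)
      split_ifs <;> simp
  have hintg : Integrable (fun ω => g ω * f n ω) μ := by
    refine hfi.bdd_mul (c := 1) hgm.aestronglyMeasurable (Eventually.of_forall (fun ω => ?_))
    rw [Real.norm_eq_abs, abs_of_nonneg (hg0 ω)]
    exact hg1 ω
  have h2 : (N : ℝ)⁻¹ * ∑ j ∈ Finset.range N, ∫ ω in B j, f n ω ∂μ =
      ∫ ω, ((N : ℝ)⁻¹ * ∑ j ∈ Finset.range N, (if ((j : ℝ) + 1) ≤ N * g ω then (1 : ℝ) else 0)) *
        f n ω ∂μ := by
    rw [Finset.sum_congr rfl (fun j _ => h1 j), ← integral_finsetSum _ (fun j _ => hint j),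
      ← integral_const_mul]
    congr 1
    ext ω
    rw [mul_assoc, Finset.sum_mul]
  have hint2 : Integrable (fun ω => ((N : ℝ)⁻¹ * ∑ j ∈ Finset.range N,
      (if ((j : ℝ) + 1) ≤ N * g ω then (1 : ℝ) else 0)) * f n ω) μ := by
    have := (integrable_finsetSum (Finset.range N) (fun j _ => hint j)).const_mul (N : ℝ)⁻¹
    refine this.congr (Eventually.of_forall (fun ω => ?_))
    simp only
    rw [mul_assoc, Finset.sum_mul]
  simp only
  rw [h2, ← integral_sub hintg hint2]
  calc |∫ ω, (g ω * f n ω - ((N : ℝ)⁻¹ * ∑ j ∈ Finset.range N,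
        (if ((j : ℝ) + 1) ≤ N * g ω then (1 : ℝ) else 0)) * f n ω) ∂μ|
      ≤ ∫ ω, |g ω * f n ω - ((N : ℝ)⁻¹ * ∑ j ∈ Finset.range N,
        (if ((j : ℝ) + 1) ≤ N * g ω then (1 : ℝ) else 0)) * f n ω| ∂μ :=
        abs_integral_le_integral_abs
    _ ≤ ∫ _ω, (N : ℝ)⁻¹ * |c| ∂μ := by
        refine integral_mono (hintg.sub hint2).abs (integrable_const _) (fun ω => ?_)
        simp only
        rw [← sub_mul, abs_mul]
        exact mul_le_mul (staircase N hN0 (g ω) (hg0 ω) (hg1 ω))
          ((hfc n ω).trans (le_abs_self c)) (abs_nonneg _) (by positivity)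
    _ = (N : ℝ)⁻¹ * |c| := by simp
    _ ≤ ε := hN.le

end gen

/-- there is a common set of convergence -/
def Good (μ : Measure Ω) (t : ℕ → ℕ → X → Ω → ℝ) (N : Set ℕ) : Prop :=
  ∀ m B, MeasurableSet B → ∀ x, Cv (atTop ⊓ 𝓟 N) (fun n => ∫ ω in B, t m n x ω ∂μ)

lemma Cv.mono {N N' : Set ℕ} (h : N' ⊆ N) {u : ℕ → ℝ} (hu : Cv (atTop ⊓ 𝓟 N) u) :
    Cv (atTop ⊓ 𝓟 N') u := by
  obtain ⟨l, hl⟩ := hu
  exact ⟨l, hl.mono_left (inf_le_inf_left _ (principal_mono.2 h))⟩

/-- the step of the recursion -/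
lemma step (hX : WStarSeqCompact X) (h : Fam μ t)
    (hbad : ∀ N : Set ℕ, N.Infinite → ¬ Good μ t N)
    {ι : Type} (hι : #ι < distributivityNumber) (C : ι → Set Ω) (hCm : ∀ i, MeasurableSet (C i))
    (hC : IsPiSystem (Set.range C)) (hu : Set.univ ∈ Set.range C) (N : Set ℕ) (hN : N.Infinite) :
    ∃ (m : ℕ) (x : X) (w : Ω → ℝ), Measurable w ∧ (∀ ω, 0 ≤ w ω) ∧ (∀ ω, w ω ≤ 2) ∧
      (∀ g : Ω → ℝ, Measurable[MeasurableSpace.generateFrom (Set.range C)] g → Bd g →
        ∫ ω, g ω * (w ω - 1) ∂μ = 0) ∧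
      ¬ Cv (atTop ⊓ 𝓟 N) (fun n => ∫ ω, w ω * t m n x ω ∂μ) := by
  classical
  have hι2 : #(ι × ℕ) < distributivityNumber := by
    rw [Cardinal.mk_prod]
    simp only [Cardinal.lift_id]
    exact Cardinal.mul_lt_of_lt aleph0_lt_distributivityNumber.le hι
      (Cardinal.mk_le_aleph0.trans_lt aleph0_lt_distributivityNumber)
  obtain ⟨N', hsub, hinf, hcv⟩ := exists_sub hX hι2
    (fun i n => wf h (wt_indicator (hCm i.1)) i.2 n) (fun i n => norm_wf_le h _ _ _) N hN
  have hne := neBot_inf hinf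
  have hb := hbad N' hinf
  simp only [Good, not_forall] at hb
  obtain ⟨m, B, hB, x, hnot⟩ := hb
  set C' : Set (Set Ω) := Set.range C with hC'
  have hC'm : ∀ A ∈ C', MeasurableSet A := by
    rintro _ ⟨i, rfl⟩
    exact hCm i
  have hle : MeasurableSpace.generateFrom C' ≤ m0 := MeasurableSpace.generateFrom_le hC'm
  have hcv2 : ∀ A ∈ C', Cv (atTop ⊓ 𝓟 N') (fun n => ∫ ω in A, t m n x ω ∂μ) := by
    rintro _ ⟨i, rfl⟩
    have h1 := hcv (i, m) x
    simp only [wf_apply] at h1
    simp only [setIntegral_eq _ (hCm i)]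
    exact h1
  have hcv3 := cv_gen (μ := μ) (fun n => t m n x) (fun n => h.meas m n x) ‖x‖
    (fun n ω => h.bd m n x ω) (atTop ⊓ 𝓟 N') C' hC hC'm hu hcv2
  -- the conditional probability
  set b : Ω → ℝ := μ[B.indicator (fun _ => (1 : ℝ)) | MeasurableSpace.generateFrom C'] with hbdef
  have hbm : Measurable[MeasurableSpace.generateFrom C'] b :=
    stronglyMeasurable_condExp.measurable
  set c : Ω → ℝ := fun ω => max 0 (min 1 (b ω)) with hc
  have hcm : Measurable[MeasurableSpace.generateFrom C'] c := by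
    have h1 : Measurable (fun s : ℝ => max 0 (min 1 s)) :=
      measurable_const.max (measurable_const.min measurable_id)
    exact h1.comp hbm
  have hcm0 : Measurable c := hcm.mono hle le_rfl
  have hc0 : ∀ ω, 0 ≤ c ω := fun ω => le_max_left _ _
  have hc1 : ∀ ω, c ω ≤ 1 := fun ω => max_le zero_le_one (min_le_left _ _)
  have hcb : Bd c := ⟨1, fun ω => by rw [abs_of_nonneg (hc0 ω)]; exact hc1 ω⟩
  have hcae : c =ᵐ[μ] b := by
    filter_upwards [(condProb_bounds (μ := μ) C' B hB).1, (condProb_bounds (μ := μ) C' B hB).2]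
      with ω h2 h3
    simp only [hc]
    rw [min_eq_right h3, max_eq_right h2]
  have hBm : Measurable (B.indicator (fun _ => (1 : ℝ))) := (wt_indicator (μ := μ) hB).meas
  have hBb : Bd (B.indicator (fun _ => (1 : ℝ))) := (wt_indicator (μ := μ) hB).bd
  have hB0 : ∀ ω, 0 ≤ B.indicator (fun _ => (1 : ℝ)) ω := (wt_indicator (μ := μ) hB).nonneg
  have hB1 : ∀ ω, B.indicator (fun _ => (1 : ℝ)) ω ≤ 1 := fun ω =>
    Set.indicator_le_self' (fun _ _ => zero_le_one) ω
  refine ⟨m, x, fun ω => 1 + B.indicator (fun _ => (1 : ℝ)) ω - c ω, ?_, ?_, ?_, ?_, ?_⟩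
  · exact (measurable_const.add hBm).sub hcm0
  · intro ω
    have := hB0 ω
    have := hc1 ω
    simp only
    linarith
  · intro ω
    have := hB1 ω
    have := hc0 ω
    simp only
    linarith
  · intro g hg hgb
    have hg0 : Measurable g := hg.mono hle le_rfl
    have h1 := integral_mul_condProb (μ := μ) C' hC'm B hB g hg (hgb.integrable hg0)
    have h2 : ∀ ω, g ω * (1 + B.indicator (fun _ => (1 : ℝ)) ω - c ω - 1) =
        B.indicator (fun _ => (1 : ℝ)) ω * g ω - c ω * g ω := by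
      intro ω
      ring
    simp only [h2]
    rw [integral_sub ((hBb.mul hgb).integrable (hBm.mul hg0))
      ((hcb.mul hgb).integrable (hcm0.mul hg0))]
    rw [← setIntegral_eq g hB, h1, sub_eq_zero]
    refine integral_congr_ae ?_
    filter_upwards [hcae] with ω h3
    rw [h3]
  · intro hcon
    apply hnot
    have h1 := Cv.mono hsub hcon
    have h2 := cv_int (μ := μ) (fun n => t m n x) (fun n => h.meas m n x) ‖x‖
      (fun n ω => h.bd m n x ω) (atTop ⊓ 𝓟 N') C' hC'm hcv3 c hcm hc0 hc1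
    have h3 := hcv2 _ hu
    simp only [setIntegral_univ] at h3
    have h4 := (h1.add h2).sub h3
    refine (Eq.mp ?_ h4)
    congr 1
    ext n
    rw [setIntegral_eq _ hB]
    have h5 : ∫ ω, (1 + B.indicator (fun _ => (1 : ℝ)) ω - c ω) * t m n x ω ∂μ =
        ∫ ω, t m n x ω ∂μ + ∫ ω, B.indicator (fun _ => (1 : ℝ)) ω * t m n x ω ∂μ -
          ∫ ω, c ω * t m n x ω ∂μ := by
      have h6 : Integrable (fun ω => t m n x ω + B.indicator (fun _ => (1 : ℝ)) ω * t m n x ω) μ :=
        (h.integrable m n x).add (h.integrable_mul hBm hBb m n x)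
      rw [← integral_add (h.integrable m n x) (h.integrable_mul hBm hBb m n x),
        ← integral_sub h6 (h.integrable_mul hcm0 hcb m n x)]
      congr 1
      ext ω
      ring
    rw [h5]
    ring

end Pool.Agent.H10Wsc
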